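import Mathlib

/-!
# Right-angled Coxeter groups: words, normal forms, length

`W Γ` is the right-angled Coxeter group whose generators are the vertices of `Γ`, two of them
commuting if they are adjacent.
-/

set_option autoImplicit false

namespace Pool.Agent.RACG

variable {V : Type*} (Γ : SimpleGraph V)

/-! ### The presentation -/

/-- The relators. -/
def rels : Set (FreeGroup V) :=
  {r | (∃ s, r = FreeGroup.of s * FreeGroup.of s) ∨ ∃ s t, Γ.Adj s t ∧
    r = FreeGroup.of s * FreeGroup.of t * (FreeGroup.of s)⁻¹ * (FreeGroup.of t)⁻¹}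

/-- The right-angled Coxeter group of `Γ`. -/
def W : Type _ := PresentedGroup (rels Γ)

noncomputable instance : Group (W Γ) := inferInstanceAs (Group (PresentedGroup (rels Γ)))

/-- The generators. -/
noncomputable def gen (s : V) : W Γ := (PresentedGroup.of s : PresentedGroup (rels Γ))

@[simp] theorem gen_mul_self (s : V) : gen Γ s * gen Γ s = 1 := by
  have h := PresentedGroup.one_of_mem (rels := rels Γ)
    (x := FreeGroup.of s * FreeGroup.of s) (Or.inl ⟨s, rfl⟩)
  rw [map_mul] at h
  exact h

@[simp] theorem gen_mul_gen_mul (s : V) (w : W Γ) : gen Γ s * (gen Γ s * w) = w := by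
  rw [← mul_assoc, gen_mul_self, one_mul]

@[simp] theorem mul_gen_mul_gen (s : V) (w : W Γ) : w * gen Γ s * gen Γ s = w := by
  rw [mul_assoc, gen_mul_self, mul_one]

@[simp] theorem gen_inv (s : V) : (gen Γ s)⁻¹ = gen Γ s := by
  rw [inv_eq_iff_mul_eq_one, gen_mul_self]

variable {Γ}

theorem gen_comm {s t : V} (h : Γ.Adj s t) : gen Γ s * gen Γ t = gen Γ t * gen Γ s := by
  have h := PresentedGroup.one_of_mem (rels := rels Γ)
    (x := FreeGroup.of s * FreeGroup.of t * (FreeGroup.of s)⁻¹ * (FreeGroup.of t)⁻¹)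
    (Or.inr ⟨s, t, h, rfl⟩)
  rw [map_mul, map_mul, map_mul, map_inv, map_inv, mul_inv_eq_one, mul_inv_eq_iff_eq_mul] at h
  exact h

/-- The universal property. -/
noncomputable def lift {H : Type*} [Group H] (f : V → H) (h1 : ∀ s, f s * f s = 1)
    (h2 : ∀ s t, Γ.Adj s t → f s * f t = f t * f s) : W Γ →* H :=
  PresentedGroup.toGroup (rels := rels Γ) (f := f) (by
    rintro r (⟨s, rfl⟩ | ⟨s, t, h, rfl⟩)
    · simp [h1]
    · simp [h2 s t h])

@[simp] theorem lift_gen {H : Type*} [Group H] (f : V → H) (h1 : ∀ s, f s * f s = 1)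
    (h2 : ∀ s t, Γ.Adj s t → f s * f t = f t * f s) (s : V) : lift f h1 h2 (gen Γ s) = f s :=
  PresentedGroup.toGroup.of _

theorem hom_ext {H : Type*} [Group H] {f g : W Γ →* H} (h : ∀ s, f (gen Γ s) = g (gen Γ s)) :
    f = g :=
  PresentedGroup.ext (rels := rels Γ) h

theorem closure_gen : Subgroup.closure (Set.range (gen Γ)) = ⊤ :=
  PresentedGroup.closure_range_of (rels Γ)

/-! ### Words -/

variable (Γ) in
/-- The element of `W Γ` represented by a word. -/
noncomputable def prod (l : List V) : W Γ := (l.map (gen Γ)).prod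

@[simp] theorem prod_nil : prod Γ [] = 1 := rfl

@[simp] theorem prod_cons (s : V) (l : List V) : prod Γ (s :: l) = gen Γ s * prod Γ l := by
  simp [prod]

@[simp] theorem prod_append (l m : List V) : prod Γ (l ++ m) = prod Γ l * prod Γ m := by
  simp [prod]

theorem prod_reverse (l : List V) : prod Γ l.reverse = (prod Γ l)⁻¹ := by
  induction l with
  | nil => simp
  | cons a l ih => simp [ih]

theorem induction_gen {P : W Γ → Prop} (h1 : P 1) (h : ∀ s w, P w → P (gen Γ s * w)) (w : W Γ) :
    P w := by
  have hw : w ∈ Subgroup.closure (Set.range (gen Γ)) := by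
    rw [closure_gen]; exact Subgroup.mem_top _
  induction hw using Subgroup.closure_induction_left with
  | one => exact h1
  | mul_left x hx y _ ih =>
    obtain ⟨s, rfl⟩ := hx
    exact h s y ih
  | inv_mul_cancel x hx y _ ih =>
    obtain ⟨s, rfl⟩ := hx
    rw [gen_inv]
    exact h s y ih

theorem lift_prod {H : Type*} [Group H] (f : V → H) (h1 : ∀ s, f s * f s = 1)
    (h2 : ∀ s t, Γ.Adj s t → f s * f t = f t * f s) (l : List V) :
    lift f h1 h2 (prod Γ l) = (l.map f).prod := by
  induction l with
  | nil => simp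
  | cons a l ih => simp [ih]

variable (Γ) in
/-- `Front s l l'`: the first letter `s` of `l` commutes with all earlier letters, and `l'` is
obtained by removing it. -/
inductive Front (s : V) : List V → List V → Prop
  | head (l : List V) : Front s (s :: l) l
  | cons {a : V} {l l' : List V} (h : Γ.Adj a s) (h' : Front s l l') : Front s (a :: l) (a :: l')

variable (Γ) in
/-- The letter `s` can be moved to the front of `l`. -/
def CF (s : V) (l : List V) : Prop := ∃ l', Front Γ s l l'

@[simp] theorem cf_nil (s : V) : ¬ CF Γ s [] := by rintro ⟨l', h⟩; cases h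

@[simp] theorem cf_cons {s a : V} {l : List V} : CF Γ s (a :: l) ↔ a = s ∨ (Γ.Adj a s ∧ CF Γ s l) := by
  constructor
  · rintro ⟨l', h⟩
    cases h with
    | head => exact Or.inl rfl
    | cons h h' => exact Or.inr ⟨h, _, h'⟩
  · rintro (rfl | ⟨h, l', h'⟩)
    · exact ⟨l, .head l⟩
    · exact ⟨_, .cons h h'⟩

theorem CF.mem {s : V} {l : List V} (h : CF Γ s l) : s ∈ l := by
  obtain ⟨l', h⟩ := h
  induction h with
  | head => simp
  | cons _ _ ih => simp [ih]

theorem Front.unique {s : V} {l l' l'' : List V} (h : Front Γ s l l') (h' : Front Γ s l l'') :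
    l' = l'' := by
  induction h generalizing l'' with
  | head l =>
    cases h' with
    | head => rfl
    | cons h _ => exact absurd h (SimpleGraph.irrefl _)
  | cons h _ ih =>
    cases h' with
    | head => exact absurd h (SimpleGraph.irrefl _)
    | cons _ h' => rw [ih h']

variable (Γ) in
/-- Words related by exchanging adjacent commuting letters. -/
inductive Tr : List V → List V → Prop
  | nil : Tr [] []
  | cons (a : V) {l m : List V} (h : Tr l m) : Tr (a :: l) (a :: m)
  | swap {a b : V} (h : Γ.Adj a b) (l : List V) : Tr (a :: b :: l) (b :: a :: l)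
  | trans {l m n : List V} (h : Tr l m) (h' : Tr m n) : Tr l n

@[refl] theorem Tr.refl : ∀ l : List V, Tr Γ l l
  | [] => .nil
  | a :: l => .cons a (Tr.refl l)

theorem Tr.symm {l m : List V} (h : Tr Γ l m) : Tr Γ m l := by
  induction h with
  | nil => exact .nil
  | cons a _ ih => exact .cons a ih
  | swap h l => exact .swap h.symm l
  | trans _ _ ih ih' => exact ih'.trans ih

theorem Tr.perm {l m : List V} (h : Tr Γ l m) : l.Perm m := by
  induction h with
  | nil => exact .nil
  | cons a _ ih => exact .cons a ih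
  | swap h l => exact .swap _ _ l
  | trans _ _ ih ih' => exact ih.trans ih'

theorem Tr.length_eq {l m : List V} (h : Tr Γ l m) : l.length = m.length := h.perm.length_eq

theorem Tr.prod_eq {l m : List V} (h : Tr Γ l m) : prod Γ l = prod Γ m := by
  induction h with
  | nil => rfl
  | cons a _ ih => simp [ih]
  | swap h l => rw [prod_cons, prod_cons, prod_cons, prod_cons, ← mul_assoc, gen_comm h, mul_assoc]
  | trans _ _ ih ih' => exact ih.trans ih'

theorem Front.tr {s : V} {l l' : List V} (h : Front Γ s l l') : Tr Γ l (s :: l') := by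
  induction h with
  | head l => rfl
  | cons h _ ih => exact (Tr.cons _ ih).trans (.swap h _)

theorem Tr.front {s : V} {l m l' : List V} (h : Tr Γ l m) (hl : Front Γ s l l') :
    ∃ m', Front Γ s m m' ∧ Tr Γ l' m' := by
  induction h generalizing l' with
  | nil => cases hl
  | cons a h ih =>
    cases hl with
    | head => exact ⟨_, .head _, h⟩
    | cons h1 h2 =>
      obtain ⟨m', hm, hm'⟩ := ih h2
      exact ⟨_, .cons h1 hm, .cons a hm'⟩
  | swap h l =>
    cases hl with
    | head => exact ⟨_, .cons h.symm (.head _), .refl _⟩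
    | cons h1 h2 =>
      cases h2 with
      | head => exact ⟨_, .head _, .refl _⟩
      | cons h3 h4 => exact ⟨_, .cons h3 (.cons h1 h4), .swap h _⟩
  | trans _ _ ih ih' =>
    obtain ⟨m', hm, hm'⟩ := ih hl
    obtain ⟨n', hn, hn'⟩ := ih' hm
    exact ⟨n', hn, hm'.trans hn'⟩

theorem Tr.cf_iff {s : V} {l m : List V} (h : Tr Γ l m) : CF Γ s l ↔ CF Γ s m :=
  ⟨fun ⟨_, hl⟩ => let ⟨m', hm, _⟩ := h.front hl; ⟨m', hm⟩,
    fun ⟨_, hl⟩ => let ⟨m', hm, _⟩ := h.symm.front hl; ⟨m', hm⟩⟩

/-- Left cancellation. -/
theorem Tr.of_cons {a : V} {l m : List V} (h : Tr Γ (a :: l) (a :: m)) : Tr Γ l m := by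
  obtain ⟨m', hm, hm'⟩ := h.front (.head l)
  rwa [(Front.head m).unique hm]

variable (Γ) in
/-- Reduced words. -/
def Red : List V → Prop
  | [] => True
  | a :: l => Red l ∧ ¬ CF Γ a l

@[simp] theorem red_nil : Red Γ [] := trivial

@[simp] theorem red_cons {a : V} {l : List V} : Red Γ (a :: l) ↔ Red Γ l ∧ ¬ CF Γ a l := Iff.rfl

theorem Tr.red_iff {l m : List V} (h : Tr Γ l m) : Red Γ l ↔ Red Γ m := by
  induction h with
  | nil => rfl
  | cons a h ih => rw [red_cons, red_cons, ih, h.cf_iff]
  | @swap a b h l =>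
    have h1 := h.symm
    have h2 := h.ne
    have h3 := h.ne.symm
    simp only [red_cons, cf_cons, h, h1, h2, h3, false_or, true_and]
    tauto
  | trans _ _ ih ih' => exact ih.trans ih'

theorem Front.red {s : V} {l l' : List V} (h : Front Γ s l l') (hl : Red Γ l) :
    Red Γ l' ∧ ¬ CF Γ s l' := (h.tr.red_iff.1 hl)

open Classical in
variable (Γ) in
/-- Multiplication by a generator, on words. -/
noncomputable def act (s : V) (l : List V) : List V :=
  if h : CF Γ s l then h.choose else s :: l

theorem act_of_front {s : V} {l l' : List V} (h : Front Γ s l l') : act Γ s l = l' := by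
  have h' : CF Γ s l := ⟨l', h⟩
  rw [act, dif_pos h']
  exact h'.choose_spec.unique h

theorem act_of_not {s : V} {l : List V} (h : ¬ CF Γ s l) : act Γ s l = s :: l := dif_neg h

theorem red_act {s : V} {l : List V} (hl : Red Γ l) : Red Γ (act Γ s l) := by
  by_cases h : CF Γ s l
  · obtain ⟨l', h⟩ := h
    rw [act_of_front h]
    exact (h.red hl).1
  · rw [act_of_not h]
    exact ⟨hl, h⟩

theorem Tr.act {s : V} {l m : List V} (h : Tr Γ l m) : Tr Γ (act Γ s l) (act Γ s m) := by
  by_cases h1 : CF Γ s l
  · obtain ⟨l', h1⟩ := h1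
    obtain ⟨m', h2, h3⟩ := h.front h1
    rw [act_of_front h1, act_of_front h2]
    exact h3
  · rw [act_of_not h1, act_of_not (fun h2 => h1 (h.cf_iff.2 h2))]
    exact .cons s h

theorem act_act {s : V} {l : List V} (hl : Red Γ l) : Tr Γ (act Γ s (act Γ s l)) l := by
  by_cases h1 : CF Γ s l
  · obtain ⟨l', h1⟩ := h1
    rw [act_of_front h1, act_of_not (h1.red hl).2]
    exact h1.tr.symm
  · rw [act_of_not h1, act_of_front (.head l)]

theorem prod_act (s : V) (l : List V) : prod Γ (act Γ s l) = gen Γ s * prod Γ l := by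
  by_cases h1 : CF Γ s l
  · obtain ⟨l', h1⟩ := h1
    rw [act_of_front h1, h1.tr.prod_eq, prod_cons, gen_mul_gen_mul]
  · rw [act_of_not h1, prod_cons]

theorem act_comm {s t : V} (h : Γ.Adj s t) (l : List V) :
    Tr Γ (act Γ s (act Γ t l)) (act Γ t (act Γ s l)) := by
  by_cases h1 : CF Γ s l
  · obtain ⟨l1, h1⟩ := h1
    by_cases h2 : CF Γ t l
    · obtain ⟨l2, h2⟩ := h2
      have h3 : CF Γ s l2 := by
        have := h2.tr.cf_iff.1 ⟨_, h1⟩
        rw [cf_cons] at this
        rcases this with h4 | h4
        · exact absurd h4 h.ne.symm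
        · exact h4.2
      have h4 : CF Γ t l1 := by
        have := h1.tr.cf_iff.1 ⟨_, h2⟩
        rw [cf_cons] at this
        rcases this with h4 | h4
        · exact absurd h4 h.ne
        · exact h4.2
      obtain ⟨l3, h3⟩ := h3
      obtain ⟨l4, h4⟩ := h4
      rw [act_of_front h1, act_of_front h2, act_of_front h3, act_of_front h4]
      have h5 : Tr Γ l (t :: s :: l3) := h2.tr.trans (.cons t h3.tr)
      have h6 : Tr Γ l (t :: s :: l4) := (h1.tr.trans (.cons s h4.tr)).trans (.swap h _)
      exact (h5.symm.trans h6).of_cons.of_cons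
    · have h3 : ¬ CF Γ t l1 := fun h3 => h2 (h1.tr.cf_iff.2 (cf_cons.2 (Or.inr ⟨h, h3⟩)))
      rw [act_of_front h1, act_of_not h2, act_of_not h3,
        act_of_front (.cons h.symm h1)]
  · by_cases h2 : CF Γ t l
    · obtain ⟨l2, h2⟩ := h2
      have h3 : ¬ CF Γ s l2 := fun h3 => h1 (h2.tr.cf_iff.2 (cf_cons.2 (Or.inr ⟨h.symm, h3⟩)))
      rw [act_of_front h2, act_of_not h1, act_of_not h3,
        act_of_front (.cons h h2)]
    · have h3 : ¬ CF Γ s (t :: l) := by
        rw [cf_cons]
        rintro (h3 | h3)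
        · exact h.ne.symm h3
        · exact h1 h3.2
      have h4 : ¬ CF Γ t (s :: l) := by
        rw [cf_cons]
        rintro (h3 | h3)
        · exact h.ne h3
        · exact h2 h3.2
      rw [act_of_not h1, act_of_not h2, act_of_not h3, act_of_not h4]
      exact .swap h l

/-! ### Normal forms -/

variable (Γ) in
/-- Reduced words up to exchanging adjacent commuting letters. -/
def setoid : Setoid {l : List V // Red Γ l} where
  r l m := Tr Γ l.1 m.1
  iseqv := ⟨fun _ => .refl _, fun h => h.symm, fun h h' => h.trans h'⟩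

variable (Γ) in
/-- Normal forms. -/
def NF : Type _ := Quotient (setoid Γ)

/-- The class of a reduced word. -/
def NF.mk (l : List V) (h : Red Γ l) : NF Γ := Quotient.mk (setoid Γ) ⟨l, h⟩

theorem NF.mk_eq {l m : List V} {hl : Red Γ l} {hm : Red Γ m} :
    NF.mk l hl = NF.mk m hm ↔ Tr Γ l m := Quotient.eq (r := setoid Γ)

theorem NF.ind {P : NF Γ → Prop} (h : ∀ l hl, P (NF.mk l hl)) (x : NF Γ) : P x :=
  Quotient.ind (fun l => h l.1 l.2) x

/-- Multiplication by a generator. -/
noncomputable def NF.act (s : V) (x : NF Γ) : NF Γ :=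
  Quotient.map (sa := setoid Γ) (sb := setoid Γ) (fun l => ⟨RACG.act Γ s l.1, red_act l.2⟩)
    (fun _ _ h => Tr.act h) x

theorem NF.act_mk (s : V) (l : List V) (h : Red Γ l) :
    NF.act s (NF.mk l h) = NF.mk (RACG.act Γ s l) (red_act h) := rfl

theorem NF.act_act (s : V) (x : NF Γ) : NF.act s (NF.act s x) = x := by
  induction x using NF.ind with
  | h l hl => exact NF.mk_eq.2 (RACG.act_act hl)

/-- Multiplication by a generator as a permutation. -/
noncomputable def NF.perm (s : V) : Equiv.Perm (NF Γ) where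
  toFun := NF.act s
  invFun := NF.act s
  left_inv := NF.act_act s
  right_inv := NF.act_act s

variable (Γ) in
/-- The action on normal forms. -/
noncomputable def toPerm : W Γ →* Equiv.Perm (NF Γ) :=
  lift NF.perm (fun s => by ext x; exact NF.act_act s x) (fun s t h => by
    ext x
    induction x using NF.ind with
    | h l hl => exact NF.mk_eq.2 (RACG.act_comm h l))

theorem toPerm_gen (s : V) (x : NF Γ) : toPerm Γ (gen Γ s) x = NF.act s x := by
  rw [toPerm, lift_gen]; rfl

theorem toPerm_prod (l : List V) (h : Red Γ l) :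
    toPerm Γ (prod Γ l) (NF.mk [] red_nil) = NF.mk l h := by
  induction l with
  | nil => simp
  | cons a l ih =>
    rw [prod_cons, map_mul, Equiv.Perm.mul_apply, ih h.1, toPerm_gen, NF.act_mk]
    exact NF.mk_eq.2 (by rw [act_of_not h.2])

/-- Two reduced words represent the same element if and only if they are related by exchanges of
adjacent commuting letters. -/
theorem prod_eq_iff {l m : List V} (hl : Red Γ l) (hm : Red Γ m) :
    prod Γ l = prod Γ m ↔ Tr Γ l m := by
  refine ⟨fun h => ?_, Tr.prod_eq⟩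
  have h1 := toPerm_prod l hl
  rw [h, toPerm_prod m hm] at h1
  exact (NF.mk_eq.1 h1).symm

theorem exists_red (w : W Γ) : ∃ l, Red Γ l ∧ prod Γ l = w := by
  refine induction_gen (P := fun w => ∃ l, Red Γ l ∧ prod Γ l = w) ⟨[], red_nil, rfl⟩
    (fun s w ih => ?_) w
  obtain ⟨l, hl, rfl⟩ := ih
  exact ⟨act Γ s l, red_act hl, prod_act s l⟩

/-- A reduced word. -/
noncomputable def nf (w : W Γ) : List V := (exists_red w).choose

theorem red_nf (w : W Γ) : Red Γ (nf w) := (exists_red w).choose_spec.1

@[simp] theorem prod_nf (w : W Γ) : prod Γ (nf w) = w := (exists_red w).choose_spec.2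

theorem tr_nf {l : List V} (hl : Red Γ l) : Tr Γ (nf (prod Γ l)) l :=
  (prod_eq_iff (red_nf _) hl).1 (prod_nf _)

/-! ### Length -/

/-- The length. -/
noncomputable def len (w : W Γ) : ℕ := (nf w).length

theorem len_prod {l : List V} (hl : Red Γ l) : len (prod Γ l) = l.length := (tr_nf hl).length_eq

@[simp] theorem len_one : len (1 : W Γ) = 0 := len_prod (l := []) red_nil

/-- `s` is a left descent of `w`. -/
def In (s : V) (w : W Γ) : Prop := CF Γ s (nf w)

theorem in_prod {s : V} {l : List V} (hl : Red Γ l) : In s (prod Γ l) ↔ CF Γ s l :=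
  (tr_nf hl).cf_iff

@[simp] theorem not_in_one (s : V) : ¬ In s (1 : W Γ) := by
  rw [← prod_nil, in_prod red_nil]; exact cf_nil s

theorem len_gen_mul_of_in {s : V} {w : W Γ} (h : In s w) : len (gen Γ s * w) + 1 = len w := by
  obtain ⟨l, h⟩ := h
  have h1 := h.tr.prod_eq
  rw [prod_nf, prod_cons] at h1
  rw [h1, gen_mul_gen_mul, len_prod (h.red (red_nf w)).1,
    ← prod_cons, len_prod (h.tr.red_iff.1 (red_nf w))]
  rfl

theorem len_gen_mul_of_not_in {s : V} {w : W Γ} (h : ¬ In s w) :
    len (gen Γ s * w) = len w + 1 := by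
  obtain ⟨l, hl, rfl⟩ := exists_red w
  rw [in_prod hl] at h
  rw [← prod_cons, len_prod (l := s :: l) ⟨hl, h⟩, len_prod hl]
  rfl

theorem in_iff {s : V} {w : W Γ} : In s w ↔ len (gen Γ s * w) < len w := by
  by_cases h : In s w
  · have := len_gen_mul_of_in h
    simp only [h, true_iff]
    omega
  · have := len_gen_mul_of_not_in h
    simp only [h, false_iff]
    omega

theorem in_gen_mul {s : V} {w : W Γ} : In s (gen Γ s * w) ↔ ¬ In s w := by
  rw [in_iff, in_iff, gen_mul_gen_mul]
  by_cases h : In s w
  · have := len_gen_mul_of_in h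
    omega
  · have := len_gen_mul_of_not_in h
    omega

theorem len_gen_mul_le (s : V) (w : W Γ) : len (gen Γ s * w) ≤ len w + 1 := by
  by_cases h : In s w
  · have := len_gen_mul_of_in h
    omega
  · rw [len_gen_mul_of_not_in h]

theorem len_prod_le (l : List V) : len (prod Γ l) ≤ l.length := by
  induction l with
  | nil => simp
  | cons a l ih =>
    rw [prod_cons]
    exact (len_gen_mul_le _ _).trans (by simpa using ih)

theorem exists_word (w : W Γ) : ∃ l : List V, prod Γ l = w ∧ l.length = len w ∧ Red Γ l :=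
  ⟨nf w, prod_nf w, rfl, red_nf w⟩

theorem len_mul_le (x y : W Γ) : len (x * y) ≤ len x + len y := by
  obtain ⟨l, rfl, hl, _⟩ := exists_word x
  obtain ⟨m, rfl, hm, _⟩ := exists_word y
  rw [← prod_append, ← hl, ← hm, ← List.length_append]
  exact len_prod_le _

theorem len_eq_zero {w : W Γ} : len w = 0 ↔ w = 1 := by
  constructor
  · intro h
    obtain ⟨l, rfl, hl, _⟩ := exists_word w
    rw [h, List.length_eq_zero_iff] at hl
    rw [hl, prod_nil]
  · rintro rfl
    exact len_one

/-- A non-trivial element has a left descent. -/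
theorem exists_in {w : W Γ} (h : w ≠ 1) : ∃ s, In s w := by
  obtain ⟨l, rfl, _, hl⟩ := exists_word w
  cases l with
  | nil => exact absurd rfl h
  | cons a l => exact ⟨a, (in_prod hl).2 (cf_cons.2 (Or.inl rfl))⟩

/-- Induction along reduced words. -/
theorem induction_in {P : W Γ → Prop} (h1 : P 1)
    (h : ∀ s w, ¬ In s w → P w → P (gen Γ s * w)) (w : W Γ) : P w := by
  obtain ⟨l, hl, rfl⟩ := exists_red w
  induction l with
  | nil => exact h1
  | cons a l ih =>
    rw [prod_cons]
    exact h a _ (by rw [in_prod hl.1]; exact hl.2) (ih hl.1)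

/-- Distinct left descents are adjacent. -/
theorem CF.adj {s t : V} {l : List V} (hs : CF Γ s l) (ht : CF Γ t l) (hne : s ≠ t) :
    Γ.Adj s t := by
  induction l with
  | nil => exact absurd hs (cf_nil s)
  | cons a l ih =>
    rw [cf_cons] at hs ht
    rcases hs with rfl | ⟨h1, h2⟩
    · rcases ht with rfl | ⟨h3, _⟩
      · exact absurd rfl hne
      · exact h3
    · rcases ht with rfl | ⟨_, h4⟩
      · exact h1.symm
      · exact ih h2 h4

theorem In.adj {s t : V} {w : W Γ} (hs : In s w) (ht : In t w) (hne : s ≠ t) : Γ.Adj s t :=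
  CF.adj hs ht hne

/-- Left descents of `t w` for `t` not a left descent of `w`. -/
theorem in_gen_mul_iff {s t : V} {w : W Γ} (ht : ¬ In t w) :
    In s (gen Γ t * w) ↔ t = s ∨ (Γ.Adj t s ∧ In s w) := by
  obtain ⟨l, hl, rfl⟩ := exists_red w
  rw [in_prod hl] at ht
  rw [← prod_cons, in_prod (l := t :: l) ⟨hl, ht⟩, in_prod hl, cf_cons]

/-- Multiplication by a commuting generator does not change being a left descent. -/
theorem in_gen_mul_of_adj {s t : V} {w : W Γ} (h : Γ.Adj t s) :
    In s (gen Γ t * w) ↔ In s w := by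
  by_cases ht : In t w
  · have h1 : ¬ In t (gen Γ t * w) := fun h1 => (in_gen_mul.1 h1) ht
    have h2 := in_gen_mul_iff (s := s) h1
    rw [gen_mul_gen_mul] at h2
    rw [h2]
    simp [h, h.ne]
  · rw [in_gen_mul_iff ht]
    simp [h, h.ne]

/-! ### Inverses -/

theorem red_reverse_append {l m : List V} (hl : Red Γ l) (hm : Red Γ m)
    (h : ∀ s, CF Γ s l → ¬ CF Γ s m) : Red Γ (l.reverse ++ m) := by
  induction l generalizing m with
  | nil => simpa using hm
  | cons a l ih =>
    rw [List.reverse_cons, List.append_assoc]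
    refine ih hl.1 (m := a :: m) ⟨hm, h a (cf_cons.2 (Or.inl rfl))⟩ fun s hs hs' => ?_
    rw [cf_cons] at hs'
    rcases hs' with rfl | ⟨h1, h2⟩
    · exact hl.2 hs
    · exact h s (cf_cons.2 (Or.inr ⟨h1, hs⟩)) h2

theorem red_reverse {l : List V} (hl : Red Γ l) : Red Γ l.reverse := by
  have := red_reverse_append hl (m := []) red_nil (by simp)
  simpa using this

@[simp] theorem len_inv (w : W Γ) : len w⁻¹ = len w := by
  obtain ⟨l, hl, rfl⟩ := exists_red w
  rw [← prod_reverse, len_prod (red_reverse hl), len_prod hl, List.length_reverse]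

/-- If `x` and `y` have no common left descent, then `x⁻¹ y` is reduced. -/
theorem len_inv_mul {x y : W Γ} (h : ∀ s, In s x → ¬ In s y) : len (x⁻¹ * y) = len x + len y := by
  obtain ⟨l, hl, rfl⟩ := exists_red x
  obtain ⟨m, hm, rfl⟩ := exists_red y
  rw [← prod_reverse, ← prod_append, len_prod (red_reverse_append hl hm fun s hs => by
    have := h s
    rw [in_prod hl, in_prod hm] at this
    exact this hs), len_prod hl, len_prod hm]
  simp

/-! ### Support -/

open Classical in
/-- The set of letters of `w`. -/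
noncomputable def supp (w : W Γ) : Finset V := (nf w).toFinset

theorem mem_supp_prod {l : List V} (hl : Red Γ l) {s : V} : s ∈ supp (prod Γ l) ↔ s ∈ l := by
  classical
  rw [supp, List.mem_toFinset]
  exact (tr_nf hl).perm.mem_iff

@[simp] theorem supp_one : supp (1 : W Γ) = ∅ := by
  ext s
  rw [← prod_nil, mem_supp_prod red_nil]
  simp

theorem mem_supp_gen_mul {s t : V} {w : W Γ} (ht : ¬ In t w) :
    s ∈ supp (gen Γ t * w) ↔ s = t ∨ s ∈ supp w := by
  obtain ⟨l, hl, rfl⟩ := exists_red w
  rw [in_prod hl] at ht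
  rw [← prod_cons, mem_supp_prod (l := t :: l) ⟨hl, ht⟩, mem_supp_prod hl, List.mem_cons]

theorem In.mem_supp {s : V} {w : W Γ} (h : In s w) : s ∈ supp w := by
  classical
  rw [supp, List.mem_toFinset]
  exact CF.mem h

/-- Words without repetitions are reduced. -/
theorem red_of_nodup {l : List V} (h : l.Nodup) : Red Γ l := by
  induction l with
  | nil => exact red_nil
  | cons a l ih =>
    rw [List.nodup_cons] at h
    exact ⟨ih h.2, fun h' => h.1 h'.mem⟩

/-- A reduced word whose letters pairwise commute has no repetitions. -/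
theorem nodup_of_red {l : List V} (hl : Red Γ l)
    (h : ∀ s ∈ l, ∀ t ∈ l, s ≠ t → Γ.Adj s t) : l.Nodup := by
  induction l with
  | nil => simp
  | cons a l ih =>
    refine List.nodup_cons.2 ⟨fun ha => hl.2 ?_, ih hl.1 fun s hs t ht =>
      h s (List.mem_cons_of_mem _ hs) t (List.mem_cons_of_mem _ ht)⟩
    have h' : ∀ s ∈ l, s ≠ a → Γ.Adj s a := fun s hs hne =>
      h s (List.mem_cons_of_mem _ hs) a List.mem_cons_self hne
    clear * - h' ha
    induction l with
    | nil => simp at ha
    | cons b l ih =>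
      rw [cf_cons]
      by_cases hb : b = a
      · exact Or.inl hb
      · refine Or.inr ⟨h' b List.mem_cons_self hb, ih (by
          rcases List.mem_cons.1 ha with h1 | h1
          · exact absurd h1.symm hb
          · exact h1) fun s hs => h' s (List.mem_cons_of_mem _ hs)⟩

/-- Permutations of words whose letters pairwise commute. -/
theorem tr_of_perm {l m : List V} (h : l.Perm m) (hl : ∀ s ∈ l, ∀ t ∈ l, s ≠ t → Γ.Adj s t) :
    Tr Γ l m := by
  induction h with
  | nil => exact .nil
  | cons a _ ih =>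
    exact .cons a (ih fun s hs t ht => hl s (List.mem_cons_of_mem _ hs) t
      (List.mem_cons_of_mem _ ht))
  | swap a b l =>
    by_cases hab : b = a
    · subst hab
      exact .refl _
    · exact .swap (hl b (by simp) a (by simp) hab) l
  | trans h1 _ ih ih' =>
    exact (ih hl).trans (ih' fun s hs t ht => hl s (h1.mem_iff.2 hs) t (h1.mem_iff.2 ht))

/-- An element whose letters pairwise commute is a product of distinct letters. -/
theorem len_le_card_supp {w : W Γ} (h : ∀ s ∈ supp w, ∀ t ∈ supp w, s ≠ t → Γ.Adj s t) :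
    len w = (supp w).card := by
  obtain ⟨l, hl, rfl⟩ := exists_red w
  simp only [mem_supp_prod hl] at h
  classical
  rw [len_prod hl, ← List.toFinset_card_of_nodup (nodup_of_red hl h)]
  congr 1
  ext s
  rw [mem_supp_prod hl, List.mem_toFinset]

theorem card_supp_le (w : W Γ) : (supp w).card ≤ len w := by
  classical
  rw [supp, len]
  exact List.toFinset_card_le _

end Pool.Agent.RACG
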