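import Pool.Agent.RACG.Hyp

/-!
# Products of cliques in right-angled Coxeter groups
-/

set_option autoImplicit false

namespace Pool.Agent.RACG

variable {V : Type*} {Γ : SimpleGraph V}

/-! ### Parities and supports -/

open Classical in
/-- Parity of the number of occurrences of the letter `s`. -/
noncomputable def par (s : V) : W Γ →* ℤˣ :=
  lift (fun t => if t = s then -1 else 1) (fun t => by split_ifs <;> simp)
    (fun _ _ _ => mul_comm _ _)

open Classical in
theorem par_gen (s t : V) : par s (gen Γ t) = if t = s then -1 else 1 := by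
  rw [par, lift_gen]

open Classical in
theorem par_prod (s : V) (l : List V) : par s (prod Γ l) = (-1) ^ (l.count s) := by
  induction l with
  | nil => simp
  | cons a l ih =>
    rw [prod_cons, map_mul, ih, par_gen, List.count_cons]
    by_cases h : a = s
    · simp [h, pow_succ]
    · simp [h]

theorem supp_gen_mul_subset [DecidableEq V] (s : V) (w : W Γ) :
    supp (gen Γ s * w) ⊆ insert s (supp w) := by
  intro t ht
  rw [Finset.mem_insert]
  by_cases h : In s w
  · have h1 : ¬ In s (gen Γ s * w) := fun h' => in_gen_mul.1 h' h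
    have h2 := mem_supp_gen_mul (s := t) h1
    rw [gen_mul_gen_mul] at h2
    exact Or.inr (h2.2 (Or.inr ht))
  · exact (mem_supp_gen_mul h).1 ht

theorem supp_mul_subset [DecidableEq V] (x y : W Γ) : supp (x * y) ⊆ supp x ∪ supp y := by
  induction x using induction_in with
  | h1 => simp
  | h s w hs ih =>
    rw [mul_assoc]
    refine (supp_gen_mul_subset s _).trans fun t ht => ?_
    rw [Finset.mem_insert] at ht
    rw [Finset.mem_union, mem_supp_gen_mul hs]
    rcases ht with rfl | ht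
    · exact Or.inl (Or.inl rfl)
    · rcases Finset.mem_union.1 (ih ht) with h | h
      · exact Or.inl (Or.inr h)
      · exact Or.inr h

/-! ### Cliques -/

variable (Γ) in
/-- Cliques. -/
def IsCl (σ : Finset V) : Prop := ∀ s ∈ σ, ∀ t ∈ σ, s ≠ t → Γ.Adj s t

theorem IsCl.mono {σ τ : Finset V} (h : IsCl Γ τ) (hs : σ ⊆ τ) : IsCl Γ σ :=
  fun s h1 t h2 => h s (hs h1) t (hs h2)

@[simp] theorem isCl_empty : IsCl Γ ∅ := fun s hs => by simp at hs

@[simp] theorem isCl_singleton (s : V) : IsCl Γ {s} := fun a ha b hb hne => by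
  rw [Finset.mem_singleton] at ha hb
  exact absurd (ha.trans hb.symm) hne

variable (Γ) in
/-- The product of the elements of a clique (or the product, in some order, of the elements of a
finite set). -/
noncomputable def wcl (σ : Finset V) : W Γ := prod Γ σ.toList

@[simp] theorem wcl_empty : wcl Γ ∅ = 1 := by simp [wcl]

@[simp] theorem wcl_singleton (s : V) : wcl Γ {s} = gen Γ s := by simp [wcl]

@[simp] theorem len_wcl (σ : Finset V) : len (wcl Γ σ) = σ.card := by
  rw [wcl, len_prod (red_of_nodup σ.nodup_toList), Finset.length_toList]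

@[simp] theorem supp_wcl (σ : Finset V) : supp (wcl Γ σ) = σ := by
  ext s
  rw [wcl, mem_supp_prod (red_of_nodup σ.nodup_toList), Finset.mem_toList]

theorem wcl_injective : Function.Injective (wcl Γ) := fun σ τ h => by
  rw [← supp_wcl (Γ := Γ) σ, h, supp_wcl]

open Classical in
theorem par_wcl (s : V) (σ : Finset V) : par s (wcl Γ σ) = if s ∈ σ then -1 else 1 := by
  rw [wcl, par_prod]
  split_ifs with h
  · rw [List.count_eq_one_of_mem σ.nodup_toList (Finset.mem_toList.2 h), pow_one]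
  · rw [List.count_eq_zero_of_not_mem (fun h' => h (Finset.mem_toList.1 h')), pow_zero]

theorem wcl_supp {w : W Γ} (h : IsCl Γ (supp w)) : wcl Γ (supp w) = w := by
  classical
  obtain ⟨l, hl, rfl⟩ := exists_red w
  have h' : ∀ s ∈ l, ∀ t ∈ l, s ≠ t → Γ.Adj s t := fun s hs t ht =>
    h s ((mem_supp_prod hl).2 hs) t ((mem_supp_prod hl).2 ht)
  have hn := nodup_of_red hl h'
  rw [wcl]
  refine (tr_of_perm ?_ ?_).prod_eq
  · refine (List.perm_ext_iff_of_nodup (Finset.nodup_toList _) hn).2 fun s => ?_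
    rw [Finset.mem_toList, mem_supp_prod hl]
  · intro s hs t ht
    exact h s (Finset.mem_toList.1 hs) t (Finset.mem_toList.1 ht)

theorem mem_supp_iff_par {w : W Γ} (h : IsCl Γ (supp w)) {s : V} : s ∈ supp w ↔ par s w = -1 := by
  classical
  have h1 := par_wcl (Γ := Γ) s (supp w)
  rw [wcl_supp h] at h1
  rw [h1]
  split_ifs with h2
  · simp [h2]
  · simp only [h2, false_iff]
    decide

theorem wcl_mul_wcl [DecidableEq V] {σ τ : Finset V} (h : IsCl Γ (σ ∪ τ)) :
    wcl Γ σ * wcl Γ τ = wcl Γ (symmDiff σ τ) := by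
  classical
  have h1 : supp (wcl Γ σ * wcl Γ τ) ⊆ σ ∪ τ := by
    have := supp_mul_subset (wcl Γ σ) (wcl Γ τ)
    simpa using this
  have h2 := h.mono h1
  rw [← wcl_supp h2]
  congr 1
  ext s
  rw [mem_supp_iff_par h2, map_mul, par_wcl, par_wcl, Finset.mem_symmDiff]
  by_cases h3 : s ∈ σ <;> by_cases h4 : s ∈ τ <;> simp [h3, h4]

theorem wcl_mul_self {σ : Finset V} (h : IsCl Γ σ) : wcl Γ σ * wcl Γ σ = 1 := by
  classical
  rw [wcl_mul_wcl (by simpa using h)]
  simp

theorem wcl_inv {σ : Finset V} (h : IsCl Γ σ) : (wcl Γ σ)⁻¹ = wcl Γ σ := by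
  rw [inv_eq_iff_mul_eq_one, wcl_mul_self h]

/-- If a product of two cliques is a clique, then their union is a clique. -/
theorem isCl_union_of_mul {σ τ ρ : Finset V} [DecidableEq V] (hσ : IsCl Γ σ) (hτ : IsCl Γ τ)
    (hρ : IsCl Γ ρ) (h : wcl Γ σ * wcl Γ τ = wcl Γ ρ) : IsCl Γ (σ ∪ τ) := by
  classical
  have key : ∀ s ∈ σ, ∀ t ∈ τ, s ≠ t → Γ.Adj s t := by
    intro s hs t ht hne
    by_cases h1 : s ∈ τ
    · exact hτ s h1 t ht hne
    by_cases h2 : t ∈ σ
    · exact hσ s hs t h2 hne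
    have h3 := congrArg (par s) h
    have h4 := congrArg (par t) h
    simp only [map_mul, par_wcl, hs, ht, h1, h2, if_true, if_false, mul_one, one_mul] at h3 h4
    refine hρ s ?_ t ?_ hne
    · by_contra h5
      simp [h5] at h3
    · by_contra h5
      simp [h5] at h4
  intro s hs t ht hne
  rw [Finset.mem_union] at hs ht
  rcases hs with hs | hs <;> rcases ht with ht | ht
  · exact hσ s hs t ht hne
  · exact key s hs t ht hne
  · exact (key t ht s hs hne.symm).symm
  · exact hτ s hs t ht hne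

theorem in_wcl {σ : Finset V} (h : IsCl Γ σ) {s : V} : In s (wcl Γ σ) ↔ s ∈ σ := by
  classical
  constructor
  · intro hs
    have := hs.mem_supp
    rwa [supp_wcl] at this
  · intro hs
    have h1 : gen Γ s * wcl Γ σ = wcl Γ (σ.erase s) := by
      rw [← wcl_singleton, wcl_mul_wcl (h.mono (by
        intro t ht
        rw [Finset.mem_union, Finset.mem_singleton] at ht
        rcases ht with rfl | ht
        · exact hs
        · exact ht))]
      congr 1
      ext t
      rw [Finset.mem_symmDiff, Finset.mem_singleton, Finset.mem_erase]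
      constructor
      · rintro (⟨rfl, h1⟩ | ⟨h1, h2⟩)
        · exact absurd hs h1
        · exact ⟨h2, h1⟩
      · rintro ⟨h1, h2⟩
        exact Or.inr ⟨h2, h1⟩
    rw [in_iff, h1, len_wcl, len_wcl, Finset.card_erase_of_mem hs]
    have := Finset.card_pos.2 ⟨s, hs⟩
    omega

/-- Products over disjoint sets are reduced. -/
theorem pre_wcl_mul {σ τ : Finset V} (h : Disjoint σ τ) :
    Pre (wcl Γ σ) (wcl Γ σ * wcl Γ τ) := by
  classical
  unfold Pre
  rw [inv_mul_cancel_left, len_wcl, len_wcl]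
  rw [wcl, wcl, ← prod_append, len_prod (red_of_nodup _), List.length_append,
    Finset.length_toList, Finset.length_toList]
  refine List.Nodup.append σ.nodup_toList τ.nodup_toList fun s hs hs' => ?_
  rw [Finset.mem_toList] at hs hs'
  exact Finset.disjoint_left.1 h hs hs'

/-- Cancelling the intersection. -/
theorem wcl_mul_wcl_sdiff [DecidableEq V] {σ τ : Finset V} (hσ : IsCl Γ σ) (hτ : IsCl Γ τ) :
    wcl Γ σ * wcl Γ τ = wcl Γ (σ \ τ) * wcl Γ (τ \ σ) := by
  have h1 : wcl Γ (σ \ τ) * wcl Γ (σ ∩ τ) = wcl Γ σ := by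
    rw [wcl_mul_wcl (by rwa [Finset.sdiff_union_inter])]
    congr 1
    ext s
    simp only [Finset.mem_symmDiff, Finset.mem_sdiff, Finset.mem_inter]
    tauto
  have h2 : wcl Γ (σ ∩ τ) * wcl Γ (τ \ σ) = wcl Γ τ := by
    rw [wcl_mul_wcl (by rw [Finset.inter_comm, Finset.union_comm, Finset.sdiff_union_inter]; exact hτ)]
    congr 1
    ext s
    simp only [Finset.mem_symmDiff, Finset.mem_sdiff, Finset.mem_inter]
    tauto
  rw [← h1, ← h2, mul_assoc, ← mul_assoc (wcl Γ (σ ∩ τ)),
    wcl_mul_self (hσ.mono Finset.inter_subset_left), one_mul]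

/-- The key lemma: a closed 4-cycle of cliques has a diagonal. -/
theorem square_diag [DecidableEq V] (hΓ : NoSquare Γ) {a b c d : Finset V} (ha : IsCl Γ a)
    (hb : IsCl Γ b) (hc : IsCl Γ c) (hd : IsCl Γ d) (h : wcl Γ a * wcl Γ b = wcl Γ d * wcl Γ c) :
    IsCl Γ (a ∪ b) ∨ IsCl Γ (a ∪ d) := by
  classical
  by_contra hcon
  push Not at hcon
  obtain ⟨h1, h2⟩ := hcon
  have key : ∀ {σ τ : Finset V}, IsCl Γ σ → IsCl Γ τ → ¬ IsCl Γ (σ ∪ τ) →
      ∃ r ∈ σ, r ∉ τ ∧ ∃ t ∈ τ, t ∉ σ ∧ ¬ Γ.Adj r t := by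
    intro σ τ hσ hτ hn
    by_contra hcon
    push Not at hcon
    refine hn fun s hs t ht hne => ?_
    rw [Finset.mem_union] at hs ht
    by_cases s1 : s ∈ σ
    · by_cases t1 : t ∈ σ
      · exact hσ s s1 t t1 hne
      · have t2 : t ∈ τ := ht.resolve_left t1
        by_cases s2 : s ∈ τ
        · exact hτ s s2 t t2 hne
        · exact hcon s s1 s2 t t2 t1
    · have s2 : s ∈ τ := hs.resolve_left s1
      by_cases t2 : t ∈ τ
      · exact hτ s s2 t t2 hne
      · exact (hcon t (ht.resolve_right t2) t2 s s2 s1).symm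
  obtain ⟨r, ra, rb, t, tb, ta, hrt⟩ := key ha hb h1
  obtain ⟨p, pa, pd, q, qd, qa, hpq⟩ := key ha hd h2
  have hpar : ∀ s, (s ∈ a ↔ s ∈ b) ↔ (s ∈ d ↔ s ∈ c) := by
    intro s
    have h3 := congrArg (par s) h
    simp only [map_mul, par_wcl] at h3
    by_cases sa : s ∈ a <;> by_cases sb : s ∈ b <;> by_cases sc : s ∈ c <;>
      by_cases sd : s ∈ d <;> simp [sa, sb, sc, sd] at h3 ⊢
  set g := wcl Γ a * wcl Γ b with hg
  have g1 : g = wcl Γ (a \ b) * wcl Γ (b \ a) := wcl_mul_wcl_sdiff ha hb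
  have g2 : g = wcl Γ (d \ c) * wcl Γ (c \ d) := h.trans (wcl_mul_wcl_sdiff hd hc)
  have p1 : Pre (wcl Γ (a \ b)) g := by
    rw [g1]
    exact pre_wcl_mul (Finset.disjoint_left.2 fun s hs hs' => by
      rw [Finset.mem_sdiff] at hs hs'
      exact hs.2 hs'.1)
  have p2 : Pre (wcl Γ (d \ c)) g := by
    rw [g2]
    exact pre_wcl_mul (Finset.disjoint_left.2 fun s hs hs' => by
      rw [Finset.mem_sdiff] at hs hs'
      exact hs.2 hs'.1)
  have in1 : ∀ s, s ∈ a → s ∉ b → In s g := fun s s1 s2 =>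
    p1.in_of_in ((in_wcl (ha.mono Finset.sdiff_subset)).2 (Finset.mem_sdiff.2 ⟨s1, s2⟩))
  have in2 : ∀ s, s ∈ d → s ∉ c → In s g := fun s s1 s2 =>
    p2.in_of_in ((in_wcl (hd.mono Finset.sdiff_subset)).2 (Finset.mem_sdiff.2 ⟨s1, s2⟩))
  have ht : ¬ In t g := fun hin => by
    have h3 := (p1.adj hin (fun h4 => by
      rw [in_wcl (ha.mono Finset.sdiff_subset), Finset.mem_sdiff] at h4
      exact ta h4.1)).1 r (by rw [supp_wcl, Finset.mem_sdiff]; exact ⟨ra, rb⟩)
    exact hrt h3.symm
  have tdc := hpar t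
  have rdc := hpar r
  have pdc := hpar p
  have qdc := hpar q
  simp only [ta, tb, ra, rb, pa, qa, pd, qd, iff_true, iff_false, true_iff, false_iff,
    not_true_eq_false] at tdc rdc pdc qdc
  have td : t ∉ d := fun td => ht (in2 t td (by tauto))
  have tc : t ∈ c := by tauto
  have rt : r ≠ t := fun e => rb (e ▸ tb)
  have rc : r ∉ c := fun rc => hrt (hc r rc t tc rt)
  have rd : r ∈ d := by tauto
  have pq : p ≠ q := fun e => qa (e ▸ pa)
  have ptn : p ≠ t := fun e => ta (e ▸ pa)
  have qr : q ≠ r := fun e => qa (e ▸ ra)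
  have qt : q ≠ t := fun e => td (e ▸ qd)
  by_cases pb : p ∈ b
  · have pr : p ≠ r := fun e => rb (e ▸ pb)
    by_cases qc : q ∈ c
    · rcases hΓ p r q t (ha p pa r ra pr) (hd r rd q qd qr.symm) (hc q qc t tc qt)
        (hb t tb p pb ptn.symm) pq rt with h3 | h3
      · exact hpq h3
      · exact hrt h3
    · have qb : q ∈ b := by tauto
      exact hpq (hb p pb q qb pq)
  · by_cases qc : q ∈ c
    · have pc : p ∈ c := by tauto
      exact hpq (hc p pc q qc pq)
    · exact hpq ((in1 p pa pb).adj (in2 q qd qc) pq)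

end Pool.Agent.RACG
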