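import Pool.Agent.RACG.Thick

/-!
# Deep finite quotients of right-angled Coxeter groups

For a colouring `lam : V → U` by an elementary abelian 2-group with characters `chi v` such that
`chi v (lam v) = -1` and `chi v (lam t) = 1` for `t` adjacent to `v`, the group `W Γ` acts on the
functions on `U × {w : len w ≤ k}` with values in `ZMod p`; the kernel contains no non-trivial
element of length at most `k`, it is contained in the kernel `H₀` of `W Γ → U`, and the image of
`H₀` is a `p`-group.
-/

set_option autoImplicit false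

namespace Pool.Agent.RACG

variable {V : Type*} {Γ : SimpleGraph V}

variable (Γ) in
/-- The elements of length at most `k`. -/
def Ball (k : ℕ) : Type _ := {w : W Γ // len w ≤ k}

instance [Finite V] (k : ℕ) : Finite (Ball Γ k) := by
  have h1 : Finite {l : List V // l.length ≤ k} := List.finite_length_le V k
  refine Finite.of_surjective (fun l : {l : List V // l.length ≤ k} =>
    (⟨prod Γ l.1, (len_prod_le _).trans l.2⟩ : Ball Γ k)) ?_
  rintro ⟨w, hw⟩
  obtain ⟨l, rfl, h2, _⟩ := exists_word w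
  exact ⟨⟨l, by rw [h2]; exact hw⟩, rfl⟩

instance (k : ℕ) : Nonempty (Ball Γ k) := ⟨⟨1, by simp⟩⟩

variable (Γ) in
/-- Two-sided colourings. -/
structure Col (p : ℕ) (U : Type*) [AddCommGroup U] where
  /-- the colours -/
  lam : V → U
  /-- the characters -/
  chi : V → U → ZMod p
  lam_add : ∀ v, lam v + lam v = 0
  chi_ne : ∀ v u, chi v u ≠ 0
  chi_self : ∀ v u, chi v (u + lam v) = - chi v u
  chi_adj : ∀ v t u, Γ.Adj v t → chi v (u + lam t) = chi v u

namespace Col

variable {p : ℕ} {U : Type*} [AddCommGroup U] (c : Col Γ p U)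

/-- The homomorphism to the group of colours. -/
noncomputable def hom : W Γ →* Multiplicative U :=
  lift (fun v => Multiplicative.ofAdd (c.lam v)) (fun v => by
    rw [← ofAdd_add, c.lam_add, ofAdd_zero]) (fun _ _ _ => mul_comm _ _)

theorem hom_gen (v : V) : c.hom (gen Γ v) = Multiplicative.ofAdd (c.lam v) := by
  rw [hom, lift_gen]

theorem add_lam_add (v : V) (u : U) : u + c.lam v + c.lam v = u := by
  rw [add_assoc, c.lam_add, add_zero]

end Col

open Classical in
/-- Going down in the ball. -/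
noncomputable def down {k : ℕ} (v : V) (x : Ball Γ k) : Ball Γ k :=
  ⟨if In v x.1 then gen Γ v * x.1 else x.1, by
    split_ifs with h
    · exact (in_iff.1 h).le.trans x.2
    · exact x.2⟩

theorem down_val {k : ℕ} {v : V} {x : Ball Γ k} (h : In v x.1) : (down v x).1 = gen Γ v * x.1 :=
  if_pos h

theorem not_in_down {k : ℕ} {v : V} {x : Ball Γ k} (h : In v x.1) : ¬ In v (down v x).1 := by
  rw [down_val h]
  exact fun h' => in_gen_mul.1 h' h

theorem in_down {k : ℕ} {v t : V} {x : Ball Γ k} (h : In v x.1) (hvt : Γ.Adj v t) :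
    In t (down v x).1 ↔ In t x.1 := by
  rw [down_val h, in_gen_mul_of_adj hvt]

theorem len_down {k : ℕ} {v : V} {x : Ball Γ k} (h : In v x.1) :
    len (down v x).1 + 1 = len x.1 := by
  rw [down_val h, len_gen_mul_of_in h]

theorem down_comm {k : ℕ} {v t : V} {x : Ball Γ k} (hv : In v x.1) (ht : In t x.1)
    (hvt : Γ.Adj v t) : down t (down v x) = down v (down t x) := by
  apply Subtype.ext
  rw [down_val ((in_down hv hvt).2 ht), down_val ((in_down ht hvt.symm).2 hv), down_val hv,
    down_val ht, ← mul_assoc, ← gen_comm hvt, mul_assoc]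

namespace Col

variable {p : ℕ} {U : Type*} [AddCommGroup U] (c : Col Γ p U) (k : ℕ)

/-- The space. -/
abbrev Mod (_ : Col Γ p U) (k : ℕ) : Type _ := U × Ball Γ k → ZMod p

open Classical in
/-- The operators. -/
noncomputable def op (v : V) (f : c.Mod k) : c.Mod k := fun x =>
  f (x.1 + c.lam v, x.2) +
    if In v x.2.1 then c.chi v (x.1 + c.lam v) * f (x.1 + c.lam v, down v x.2) else 0

theorem op_of_in {v : V} {f : c.Mod k} {u : U} {x : Ball Γ k} (h : In v x.1) :
    c.op k v f (u, x) = f (u + c.lam v, x) +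
      c.chi v (u + c.lam v) * f (u + c.lam v, down v x) := by
  rw [op, if_pos h]

theorem op_of_not {v : V} {f : c.Mod k} {u : U} {x : Ball Γ k} (h : ¬ In v x.1) :
    c.op k v f (u, x) = f (u + c.lam v, x) := by
  rw [op, if_neg h, add_zero]

theorem op_op (v : V) (f : c.Mod k) : c.op k v (c.op k v f) = f := by
  funext ⟨u, x⟩
  by_cases h : In v x.1
  · rw [op_of_in _ _ h, op_of_in _ _ h, op_of_not _ _ (not_in_down h), c.add_lam_add,
      c.chi_self]
    ring
  · rw [op_of_not _ _ h, op_of_not _ _ h, c.add_lam_add]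

theorem op_comm {v t : V} (hvt : Γ.Adj v t) (f : c.Mod k) :
    c.op k v (c.op k t f) = c.op k t (c.op k v f) := by
  funext ⟨u, x⟩
  have e : u + c.lam v + c.lam t = u + c.lam t + c.lam v := by abel
  have e1 : c.chi t (u + c.lam v + c.lam t) = c.chi t (u + c.lam t) := by
    rw [e, c.chi_adj t v _ hvt.symm]
  have e2 : c.chi v (u + c.lam t + c.lam v) = c.chi v (u + c.lam v) := by
    rw [← e, c.chi_adj v t _ hvt]
  by_cases h : In v x.1
  · by_cases h' : In t x.1
    · rw [op_of_in _ _ h, op_of_in _ _ h', op_of_in _ _ h', op_of_in _ _ h,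
        op_of_in _ _ ((in_down h hvt).2 h'), op_of_in _ _ ((in_down h' hvt.symm).2 h),
        down_comm h h' hvt, e1, e2, e]
      ring
    · rw [op_of_in _ _ h, op_of_not _ _ h', op_of_not _ _ h', op_of_in _ _ h,
        op_of_not _ _ (fun h'' => h' ((in_down h hvt).1 h'')), e2, e]
  · by_cases h' : In t x.1
    · rw [op_of_not _ _ h, op_of_in _ _ h', op_of_in _ _ h', op_of_not _ _ h,
        op_of_not _ _ (fun h'' => h ((in_down h' hvt.symm).1 h'')), e1, e]
    · rw [op_of_not _ _ h, op_of_not _ _ h', op_of_not _ _ h', op_of_not _ _ h, e]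

/-- The operators as linear equivalences. -/
noncomputable def opL (v : V) : c.Mod k ≃ₗ[ZMod p] c.Mod k where
  toFun := c.op k v
  invFun := c.op k v
  left_inv := c.op_op k v
  right_inv := c.op_op k v
  map_add' f g := by
    funext ⟨u, x⟩
    rw [Pi.add_apply]
    by_cases h : In v x.1
    · rw [op_of_in _ _ h, op_of_in _ _ h, op_of_in _ _ h, Pi.add_apply, Pi.add_apply]
      ring
    · rw [op_of_not _ _ h, op_of_not _ _ h, op_of_not _ _ h, Pi.add_apply]
  map_smul' a f := by
    funext ⟨u, x⟩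
    rw [Pi.smul_apply]
    by_cases h : In v x.1
    · rw [op_of_in _ _ h, op_of_in _ _ h, Pi.smul_apply, Pi.smul_apply]
      simp only [smul_eq_mul, RingHom.id_apply]
      ring
    · rw [op_of_not _ _ h, op_of_not _ _ h, Pi.smul_apply]
      rfl

/-- The representation. -/
noncomputable def rho : W Γ →* (c.Mod k ≃ₗ[ZMod p] c.Mod k) :=
  lift (c.opL k) (fun v => by ext1 f; exact c.op_op k v f)
    (fun v t h => by ext1 f; exact c.op_comm k h f)

theorem rho_gen_mul (v : V) (w : W Γ) (f : c.Mod k) :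
    c.rho k (gen Γ v * w) f = c.op k v (c.rho k w f) := by
  rw [map_mul, LinearEquiv.mul_apply, rho, lift_gen]
  rfl

/-- The operators are unitriangular with respect to the length. -/
theorem rho_tri (w : W Γ) (f : c.Mod k) (j : ℕ) (hf : ∀ u x, len x.1 < j → f (u, x) = 0) (u : U)
    (x : Ball Γ k) (hx : len x.1 ≤ j) : c.rho k w f (u, x) = f (u + (c.hom w).toAdd, x) := by
  induction w using induction_in generalizing u x with
  | h1 => simp
  | h v w _ ih =>
    rw [rho_gen_mul]
    have h1 : u + (c.hom (gen Γ v * w)).toAdd = u + c.lam v + (c.hom w).toAdd := by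
      rw [map_mul, c.hom_gen, toAdd_mul, toAdd_ofAdd, add_assoc]
    rw [h1]
    by_cases h : In v x.1
    · have h2 := len_down h
      rw [op_of_in _ _ h, ih _ x hx, ih _ (down v x) (by omega), hf _ (down v x) (by omega),
        mul_zero, add_zero]
    · rw [op_of_not _ _ h, ih _ x hx]

theorem pow_eq_one [Fact p.Prime] (w : W Γ) (hw : c.hom w = 1) :
    c.rho k w ^ p ^ (k + 1) = 1 := by
  set N : Module.End (ZMod p) (c.Mod k) := (c.rho k w : c.Mod k →ₗ[ZMod p] c.Mod k) - 1 with hN
  have h1 : ∀ j (f : c.Mod k) u (x : Ball Γ k), len x.1 < j → (N ^ j) f (u, x) = 0 := by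
    intro j
    induction j with
    | zero => intro f u x h; omega
    | succ j ih =>
      intro f u x h
      rw [pow_succ', Module.End.mul_apply, hN, LinearMap.sub_apply, Pi.sub_apply]
      have h2 := c.rho_tri k w ((N ^ j) f) j (ih f) u x (by omega)
      rw [hw, toAdd_one, add_zero] at h2
      rw [LinearEquiv.coe_coe, ← hN, h2, Module.End.one_apply, sub_self]
  have h2 : N ^ (k + 1) = 0 := by
    refine LinearMap.ext fun f => ?_
    funext ⟨u, x⟩
    rw [h1 (k + 1) f u x (Nat.lt_succ_of_le x.2)]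
    rfl
  have hp : p.Prime := Fact.out
  have h3 : k + 1 ≤ p ^ (k + 1) := (Nat.lt_pow_self hp.one_lt).le
  have h4 : N ^ p ^ (k + 1) = 0 := by
    rw [← Nat.sub_add_cancel h3, pow_add, h2, mul_zero]
  have : Nontrivial (Module.End (ZMod p) (c.Mod k)) := inferInstance
  have : CharP (Module.End (ZMod p) (c.Mod k)) p :=
    charP_of_injective_algebraMap (algebraMap (ZMod p) (Module.End (ZMod p) (c.Mod k))).injective p
  have h5 : (c.rho k w : c.Mod k →ₗ[ZMod p] c.Mod k) ^ p ^ (k + 1) = 1 := by
    have h6 : (c.rho k w : c.Mod k →ₗ[ZMod p] c.Mod k) = 1 + N := by rw [hN]; abel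
    rw [h6]
    change ((1 : Module.End (ZMod p) (c.Mod k)) + N) ^ p ^ (k + 1) = 1
    rw [add_pow_char_pow_of_commute _ _ (Commute.one_left N), one_pow, h4, add_zero]
  refine LinearEquiv.ext fun f => ?_
  have h6 := congrArg (fun g : Module.End (ZMod p) (c.Mod k) => g f) h5
  have h7 : ∀ (e : c.Mod k ≃ₗ[ZMod p] c.Mod k) (n : ℕ),
      ((e : c.Mod k →ₗ[ZMod p] c.Mod k) ^ n) f = (e ^ n) f := by
    intro e n
    induction n with
    | zero => rfl
    | succ n ih => rw [pow_succ', Module.End.mul_apply, ih, pow_succ', LinearEquiv.mul_apply]; rfl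
  rw [← h7]
  exact h6

open Classical in
/-- The test vector. -/
noncomputable def f₀ : c.Mod k := fun x => if x.1 = 0 ∧ x.2.1 = 1 then 1 else 0

open Classical in
theorem rho_f₀ [Fact p.Prime] (w : W Γ) (hw : len w ≤ k) : ∃ ε : ZMod p, ε ≠ 0 ∧
    ∀ u (x : Ball Γ k), len w ≤ len x.1 → c.rho k w (c.f₀ k) (u, x) =
      if u = (c.hom w).toAdd ∧ x.1 = w then ε else 0 := by
  induction w using induction_in with
  | h1 =>
    refine ⟨1, one_ne_zero, fun u x _ => ?_⟩
    simp [f₀]
  | h v w hv ih =>
    have l1 := len_gen_mul_of_not_in hv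
    obtain ⟨ε, h1, h2⟩ := ih (by omega)
    refine ⟨c.chi v (c.hom w).toAdd * ε, mul_ne_zero (c.chi_ne _ _) h1, fun u x hx => ?_⟩
    rw [rho_gen_mul]
    have h3 : x.1 ≠ w := by
      rintro rfl
      omega
    have h4 : (c.hom (gen Γ v * w)).toAdd = c.lam v + (c.hom w).toAdd := by
      rw [map_mul, c.hom_gen, toAdd_mul, toAdd_ofAdd]
    have h5 : u + c.lam v = (c.hom w).toAdd ↔ u = c.lam v + (c.hom w).toAdd := by
      constructor
      · intro h
        rw [← h, add_comm u, ← add_assoc, c.lam_add, zero_add]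
      · rintro rfl
        rw [add_right_comm, c.lam_add, zero_add]
    by_cases h : In v x.1
    · have h6 := len_down h
      have h7 : (down v x).1 = w ↔ x.1 = gen Γ v * w := by
        rw [down_val h]
        constructor
        · rintro rfl; simp
        · intro h; rw [h]; simp
      rw [op_of_in _ _ h, h2 _ x (by omega), if_neg (fun h => h3 h.2), zero_add,
        h2 _ (down v x) (by omega), h4, h5, h7]
      by_cases h8 : u = c.lam v + (c.hom w).toAdd ∧ x.1 = gen Γ v * w
      · rw [if_pos h8, if_pos h8, h5.2 h8.1]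
      · rw [if_neg h8, if_neg h8, mul_zero]
    · have h6 : x.1 ≠ gen Γ v * w := by
        intro h'
        rw [h'] at h
        exact h (in_gen_mul.2 hv)
      rw [op_of_not _ _ h, h2 _ x (by omega), if_neg (fun h => h3 h.2), if_neg (fun h => h6 h.2)]

theorem deep [Fact p.Prime] : Deep (c.rho k) k := by
  intro w hw hlen
  obtain ⟨ε, h1, h2⟩ := c.rho_f₀ k w hlen
  have h3 := h2 (c.hom w).toAdd ⟨w, hlen⟩ le_rfl
  rw [hw, if_pos ⟨rfl, rfl⟩] at h3
  by_contra hne
  have h4 : c.f₀ k ((c.hom w).toAdd, ⟨w, hlen⟩) = 0 := if_neg fun h => hne h.2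
  exact h1 (h3.symm.trans h4)

theorem hom_eq_one [Fact p.Prime] (w : W Γ) (hw : c.rho k w = 1) : c.hom w = 1 := by
  have h1 := c.rho_tri k w (c.f₀ k) 0 (fun _ _ h => absurd h (by omega)) (- (c.hom w).toAdd)
    ⟨1, by simp⟩ (by simp)
  rw [hw] at h1
  have h2 : c.f₀ k (-(c.hom w).toAdd + (c.hom w).toAdd, ⟨1, by simp⟩) = 1 :=
    if_pos ⟨by simp, rfl⟩
  rw [h2] at h1
  by_contra hne
  have h3 : c.f₀ k (-(c.hom w).toAdd, ⟨1, by simp⟩) = 0 := if_neg fun h => by
    refine hne ?_
    have := h.1
    rw [neg_eq_zero] at this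
    exact Multiplicative.toAdd.injective this
  exact one_ne_zero ((h1.symm.trans h3))

end Col

/-- **Deep quotients.** -/
theorem exists_deep {V : Type} [Finite V] {Γ : SimpleGraph V} {p : ℕ} [Fact p.Prime] {U : Type}
    [AddCommGroup U] [Finite U] (c : Col Γ p U) (k : ℕ) :
    ∃ (Q : Type) (_ : Group Q) (_ : Finite Q) (π : W Γ →* Q), Function.Surjective π ∧ Deep π k ∧
      (∀ w, π w = 1 → c.hom w = 1) ∧ ∀ w, c.hom w = 1 → ∃ j, π w ^ p ^ j = 1 := by
  have hp : p.Prime := Fact.out
  have : NeZero p := ⟨hp.ne_zero⟩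
  have : Finite (c.Mod k) := Pi.finite
  have : Finite (c.Mod k ≃ₗ[ZMod p] c.Mod k) :=
    Finite.of_injective (fun e => (e : c.Mod k → c.Mod k)) DFunLike.coe_injective
  refine ⟨(c.rho k).range, inferInstance, inferInstance, (c.rho k).rangeRestrict,
    (c.rho k).rangeRestrict_surjective, ?_, ?_, ?_⟩
  · intro w hw
    exact c.deep k w (by simpa [Subtype.ext_iff] using hw)
  · intro w hw
    exact c.hom_eq_one k w (by simpa [Subtype.ext_iff] using hw)
  · intro w hw
    refine ⟨k + 1, Subtype.ext ?_⟩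
    rw [SubmonoidClass.coe_pow, MonoidHom.coe_rangeRestrict]
    exact c.pow_eq_one k w hw

end Pool.Agent.RACG
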