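import Pool.Agent.RACG.Basic
import Pool.Agent.HypFI.FinIdx

/-!
# Right-angled Coxeter groups of graphs without induced squares are hyperbolic
-/

set_option autoImplicit false

namespace Pool.Agent.RACG

variable {V : Type*} {Γ : SimpleGraph V}

/-- `c` is a prefix of `x`. -/
def Pre (c x : W Γ) : Prop := len c + len (c⁻¹ * x) = len x

theorem len_le_add (c x : W Γ) : len x ≤ len c + len (c⁻¹ * x) := by
  have := len_mul_le c (c⁻¹ * x)
  rwa [mul_inv_cancel_left] at this

theorem len_inv_mul_comm (x y : W Γ) : len (x⁻¹ * y) = len (y⁻¹ * x) := by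
  rw [← len_inv, mul_inv_rev, inv_inv]

theorem pre_one (x : W Γ) : Pre 1 x := by simp [Pre]

theorem Pre.trans {c a y : W Γ} (h : Pre c a) (h' : Pre a y) : Pre c y := by
  have h1 := len_le_add c y
  have h2 := len_mul_le (c⁻¹ * a) (a⁻¹ * y)
  rw [mul_assoc, mul_inv_cancel_left] at h2
  unfold Pre at *
  omega

/-- Removing a common prefix. -/
theorem Pre.sub {c a y : W Γ} (h : Pre c a) (h' : Pre a y) : Pre (c⁻¹ * a) (c⁻¹ * y) := by
  have h1 := h.trans h'
  unfold Pre at *
  have : (c⁻¹ * a)⁻¹ * (c⁻¹ * y) = a⁻¹ * y := by group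
  rw [this]
  omega

/-- The greatest common prefix of `x` and `y`. -/
theorem exists_meet (x y : W Γ) : ∃ c, Pre c x ∧ Pre c y ∧
    (∀ s, In s (c⁻¹ * x) → ¬ In s (c⁻¹ * y)) ∧ len (x⁻¹ * y) + 2 * len c = len x + len y := by
  induction hn : len x using Nat.strong_induction_on generalizing x y with
  | _ n ih =>
    by_cases h : ∃ s, In s x ∧ In s y
    · obtain ⟨s, hx, hy⟩ := h
      have h1 := len_gen_mul_of_in hx
      have h2 := len_gen_mul_of_in hy
      obtain ⟨c, h3, h4, h5, h6⟩ := ih (len (gen Γ s * x)) (by omega) (gen Γ s * x) (gen Γ s * y) rfl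
      have h7 := len_gen_mul_le s c
      have e : ∀ z, (gen Γ s * c)⁻¹ * z = c⁻¹ * (gen Γ s * z) := fun z => by
        rw [mul_inv_rev, gen_inv, mul_assoc]
      have h8 := len_le_add (gen Γ s * c) x
      have h9 := len_le_add (gen Γ s * c) y
      have e2 : (gen Γ s * x)⁻¹ * (gen Γ s * y) = x⁻¹ * y := by
        rw [mul_inv_rev, gen_inv, mul_assoc, gen_mul_gen_mul]
      rw [e2] at h6
      unfold Pre at h3 h4
      refine ⟨gen Γ s * c, ?_, ?_, ?_, ?_⟩
      · unfold Pre
        rw [e] at h8 ⊢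
        omega
      · unfold Pre
        rw [e] at h9 ⊢
        omega
      · intro r
        rw [e, e]
        exact h5 r
      · rw [e] at h8
        omega
    · push Not at h
      refine ⟨1, pre_one x, pre_one y, ?_, ?_⟩
      · simpa using h
      · rw [len_inv_mul h]
        simp [hn]

theorem Pre.in_of_in {b y : W Γ} (h : Pre b y) {t : V} (ht : In t b) : In t y := by
  rw [in_iff]
  have h1 := len_gen_mul_of_in ht
  have h2 := len_mul_le (gen Γ t * b) (b⁻¹ * y)
  rw [mul_assoc, mul_inv_cancel_left] at h2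
  unfold Pre at h
  omega

/-- Descents of `y` which are not descents of the prefix `b` commute with the letters of `b`. -/
theorem Pre.adj {b y : W Γ} (h : Pre b y) {s : V} (hs : In s y) (hb : ¬ In s b) :
    (∀ t ∈ supp b, Γ.Adj s t) ∧ Pre b (gen Γ s * y) := by
  induction b using induction_in generalizing y with
  | h1 => exact ⟨by simp, pre_one _⟩
  | h t b ht ih =>
    have hin : In t (gen Γ t * b) := in_gen_mul.2 ht
    have hty : In t y := h.in_of_in hin
    have hne : s ≠ t := fun e => hb (e ▸ hin)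
    have hadj : Γ.Adj s t := hs.adj hty hne
    have hb1 : ¬ In s b := fun h1 => hb ((in_gen_mul_of_adj hadj.symm).2 h1)
    have hsy : In s (gen Γ t * y) := (in_gen_mul_of_adj hadj.symm).2 hs
    have e : ∀ z, (gen Γ t * b)⁻¹ * z = b⁻¹ * (gen Γ t * z) := fun z => by
      rw [mul_inv_rev, gen_inv, mul_assoc]
    have l1 := len_gen_mul_of_not_in ht
    have l2 := len_gen_mul_of_in hty
    have l3 := len_gen_mul_of_in hs
    have l4 := len_gen_mul_of_in hsy
    have h' : Pre b (gen Γ t * y) := by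
      unfold Pre at h ⊢
      rw [e] at h
      omega
    obtain ⟨h1, h2⟩ := ih h' hsy hb1
    refine ⟨fun r hr => ?_, ?_⟩
    · rw [mem_supp_gen_mul ht] at hr
      rcases hr with rfl | hr
      · exact hadj
      · exact h1 r hr
    · unfold Pre at h2 ⊢
      rw [e, ← mul_assoc (gen Γ t), ← gen_comm hadj, mul_assoc]
      omega

/-- Two prefixes without common descents have commuting supports. -/
theorem Pre.supp_adj {a b y : W Γ} (ha : Pre a y) (hb : Pre b y) (h : ∀ s, In s a → ¬ In s b) :
    ∀ s ∈ supp a, ∀ t ∈ supp b, Γ.Adj s t := by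
  induction a using induction_in generalizing y with
  | h1 => simp
  | h s a hs ih =>
    have hin : In s (gen Γ s * a) := in_gen_mul.2 hs
    have hy : In s y := ha.in_of_in hin
    obtain ⟨h1, h2⟩ := hb.adj hy (h s hin)
    have e : (gen Γ s * a)⁻¹ * y = a⁻¹ * (gen Γ s * y) := by rw [mul_inv_rev, gen_inv, mul_assoc]
    have l1 := len_gen_mul_of_not_in hs
    have l2 := len_gen_mul_of_in hy
    have ha' : Pre a (gen Γ s * y) := by
      unfold Pre at ha ⊢
      rw [e] at ha
      omega
    have h3 := ih ha' h2 (fun r hr hr' => by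
      have h4 : Γ.Adj s r := h1 r hr'.mem_supp
      exact h r ((in_gen_mul_of_adj h4).2 hr) hr')
    intro r hr t ht
    rw [mem_supp_gen_mul hs] at hr
    rcases hr with rfl | hr
    · exact h1 t ht
    · exact h3 r hr t ht

/-- No induced squares. -/
def NoSquare (Γ : SimpleGraph V) : Prop :=
  ∀ a b c d, Γ.Adj a b → Γ.Adj b c → Γ.Adj c d → Γ.Adj d a → a ≠ c → b ≠ d →
    Γ.Adj a c ∨ Γ.Adj b d

theorem len_min_le (hΓ : NoSquare Γ) [Fintype V] {a b y : W Γ} (ha : Pre a y) (hb : Pre b y)
    (h : ∀ s, In s a → ¬ In s b) : min (len a) (len b) ≤ Fintype.card V := by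
  have h1 := ha.supp_adj hb h
  by_cases h2 : ∀ s ∈ supp a, ∀ t ∈ supp a, s ≠ t → Γ.Adj s t
  · exact (min_le_left _ _).trans ((len_le_card_supp h2).le.trans (Finset.card_le_univ _))
  · by_cases h3 : ∀ s ∈ supp b, ∀ t ∈ supp b, s ≠ t → Γ.Adj s t
    · exact (min_le_right _ _).trans ((len_le_card_supp h3).le.trans (Finset.card_le_univ _))
    · push Not at h2 h3
      obtain ⟨p, hp, q, hq, hpq, hpq'⟩ := h2
      obtain ⟨r, hr, t, ht, hrt, hrt'⟩ := h3
      rcases hΓ p r q t (h1 p hp r hr) (h1 q hq r hr).symm (h1 q hq t ht) (h1 p hp t ht).symm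
        hpq hrt with h4 | h4
      · exact absurd h4 hpq'
      · exact absurd h4 hrt'

theorem fourPt_len (hΓ : NoSquare Γ) [Fintype V] (x y z : W Γ) :
    min ((len x : ℤ) + len y - len (x⁻¹ * y)) ((len y : ℤ) + len z - len (y⁻¹ * z)) -
      2 * (Fintype.card V : ℤ) ≤ (len x : ℤ) + len z - len (x⁻¹ * z) := by
  obtain ⟨a, a1, a2, _, a4⟩ := exists_meet x y
  obtain ⟨b, b1, b2, _, b4⟩ := exists_meet y z
  obtain ⟨c, c1, c2, c3, c4⟩ := exists_meet a b
  have h1 := len_min_le hΓ (c1.sub a2) (c2.sub b1) c3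
  have h2 := c1.trans a1
  have h3 := c2.trans b2
  have h4 := len_mul_le (x⁻¹ * c) (c⁻¹ * z)
  rw [mul_assoc, mul_inv_cancel_left, len_inv_mul_comm x c] at h4
  unfold Pre at c1 c2 h2 h3
  rcases min_le_iff.1 h1 with h1 | h1
  · refine (sub_le_sub_right (min_le_left _ _) _).trans ?_
    omega
  · refine (sub_le_sub_right (min_le_right _ _) _).trans ?_
    omega

/-! ### The word metric -/

open Classical in
variable (Γ) in
/-- The standard generating set. -/
noncomputable def gens [Fintype V] : Finset (W Γ) := Finset.univ.image (gen Γ)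

theorem coe_gens [Fintype V] : (gens Γ : Set (W Γ)) = Set.range (gen Γ) := by
  simp [gens]

theorem wordDist_gens [Fintype V] (g h : W Γ) :
    HypFI.wordDist (gens Γ : Set (W Γ)) g h = len (g⁻¹ * h) := by
  rw [coe_gens]
  refine le_antisymm ?_ ?_
  · obtain ⟨l, hl, hl', _⟩ := exists_word (g⁻¹ * h)
    have := HypFI.wordDist_le (S := Set.range (gen Γ)) (g := g) (h := h) (l := l.map (gen Γ))
      (by
        intro s hs
        obtain ⟨a, _, rfl⟩ := List.mem_map.1 hs
        exact Or.inl ⟨a, rfl⟩) hl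
    rwa [List.length_map, hl'] at this
  · obtain ⟨l, hl, hl1, hl2⟩ := HypFI.exists_word (S := Set.range (gen Γ)) closure_gen g h
    rw [← hl, ← hl2]
    clear hl hl2
    induction l with
    | nil => simp
    | cons a l ih =>
      have h1 := ih fun s hs => hl1 s (List.mem_cons_of_mem _ hs)
      have h2 : ∃ s, gen Γ s = a := by
        rcases hl1 a List.mem_cons_self with ⟨s, hs⟩ | ⟨s, hs⟩
        · exact ⟨s, hs⟩
        · exact ⟨s, by rw [← gen_inv, hs, inv_inv]⟩
      obtain ⟨s, rfl⟩ := h2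
      rw [List.prod_cons, List.length_cons]
      exact (len_gen_mul_le _ _).trans (by omega)

theorem fourPt_wordDist (hΓ : NoSquare Γ) [Fintype V] :
    HypFI.FourPt (HypFI.wordDist (gens Γ : Set (W Γ))) (Fintype.card V) := by
  intro x y z w
  have h := fourPt_len hΓ (w⁻¹ * x) (w⁻¹ * y) (w⁻¹ * z)
  have e : ∀ p q : W Γ, (w⁻¹ * p)⁻¹ * (w⁻¹ * q) = p⁻¹ * q := fun p q => by group
  simp only [e] at h
  simp only [wordDist_gens, len_inv_mul_comm _ w]
  exact h

/-- Finite index subgroups of the right-angled Coxeter group of a finite graph without induced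
squares are hyperbolic. -/
theorem hypGroup (hΓ : NoSquare Γ) [Fintype V] (G : Subgroup (W Γ)) [G.FiniteIndex] :
    HypFI.HypGroup G :=
  HypFI.hypGroup_finiteIndex (gens Γ) (by rw [coe_gens]; exact closure_gen) _
    (fourPt_wordDist hΓ) G

end Pool.Agent.RACG
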