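import Pool.Agent.RACG.Clique

/-!
# The thickening of a finite quotient of the Davis complex

For a homomorphism `π : W Γ →* Q` whose kernel contains no short non-trivial elements, `thick π` is
the graph on `Q` with `p ~ q` if `p` and `q` lie in a common cube `q π(W_σ)`, `σ` a clique.
-/

set_option autoImplicit false

namespace Pool.Agent.RACG

variable {V : Type*} {Γ : SimpleGraph V} {Q : Type*} [Group Q]

/-- The vertex set of the cube at `q` with directions `τ`. -/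
def cube (π : W Γ →* Q) (q : Q) (τ : Finset V) : Set Q :=
  {p | ∃ σ, σ ⊆ τ ∧ p = q * π (wcl Γ σ)}

/-- The thickening. -/
def thick (π : W Γ →* Q) : SimpleGraph Q where
  Adj p q := p ≠ q ∧ ∃ σ, IsCl Γ σ ∧ q = p * π (wcl Γ σ)
  symm := ⟨by
    rintro p q ⟨h, σ, hσ, rfl⟩
    refine ⟨h.symm, σ, hσ, ?_⟩
    rw [mul_assoc, ← map_mul, wcl_mul_self hσ, map_one, mul_one]⟩
  loopless := ⟨fun p h => h.1 rfl⟩

variable {π : W Γ →* Q}

theorem thick_adj {p q : Q} : (thick π).Adj p q ↔ p ≠ q ∧ ∃ σ, IsCl Γ σ ∧ q = p * π (wcl Γ σ) :=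
  Iff.rfl

theorem self_mem_cube (q : Q) (τ : Finset V) : q ∈ cube π q τ := ⟨∅, by simp, by simp⟩

theorem cube_mono (q : Q) {σ τ : Finset V} (h : σ ⊆ τ) : cube π q σ ⊆ cube π q τ := by
  rintro p ⟨ρ, h1, h2⟩
  exact ⟨ρ, h1.trans h, h2⟩

theorem cube_subset_of_mem {q p : Q} {τ : Finset V} (hτ : IsCl Γ τ) (h : p ∈ cube π q τ) :
    cube π p τ ⊆ cube π q τ := by
  classical
  obtain ⟨σ, hσ, rfl⟩ := h
  rintro _ ⟨ρ, hρ, rfl⟩
  refine ⟨symmDiff σ ρ, ?_, ?_⟩
  · intro s hs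
    rw [Finset.mem_symmDiff] at hs
    rcases hs with hs | hs
    · exact hσ hs.1
    · exact hρ hs.1
  · rw [mul_assoc, ← map_mul, wcl_mul_wcl (hτ.mono (Finset.union_subset hσ hρ))]

theorem mem_cube_comm {q p : Q} {τ : Finset V} (hτ : IsCl Γ τ) (h : p ∈ cube π q τ) :
    q ∈ cube π p τ := by
  obtain ⟨σ, hσ, rfl⟩ := h
  refine ⟨σ, hσ, ?_⟩
  rw [mul_assoc, ← map_mul, wcl_mul_self (hτ.mono hσ), map_one, mul_one]

theorem cube_eq_of_mem {q p : Q} {τ : Finset V} (hτ : IsCl Γ τ) (h : p ∈ cube π q τ) :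
    cube π p τ = cube π q τ :=
  (cube_subset_of_mem hτ h).antisymm (cube_subset_of_mem hτ (mem_cube_comm hτ h))

/-- Cubes are cliques. -/
theorem adj_of_mem_cube {q p p' : Q} {τ : Finset V} (hτ : IsCl Γ τ) (h : p ∈ cube π q τ)
    (h' : p' ∈ cube π q τ) (hne : p ≠ p') : (thick π).Adj p p' := by
  rw [← cube_eq_of_mem hτ h] at h'
  obtain ⟨σ, hσ, rfl⟩ := h'
  exact ⟨hne, σ, hτ.mono hσ, rfl⟩

/-- `π` has no non-trivial elements of length at most `n` in its kernel. -/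
def Deep (π : W Γ →* Q) (n : ℕ) : Prop := ∀ w, π w = 1 → len w ≤ n → w = 1

theorem Deep.mono {m n : ℕ} (h : Deep π n) (hmn : m ≤ n) : Deep π m :=
  fun w h1 h2 => h w h1 (h2.trans hmn)

theorem Deep.eq {n : ℕ} (h : Deep π n) {x y : W Γ} (hxy : π x = π y) (hn : len x + len y ≤ n) :
    x = y := by
  have h1 : x⁻¹ * y = 1 := h _ (by rw [map_mul, map_inv, hxy, inv_mul_cancel])
    ((len_mul_le _ _).trans (by rwa [len_inv]))
  exact (inv_mul_eq_one.1 h1)

theorem mem_cube_iff {D : ℕ} (hD : ∀ σ, IsCl Γ σ → σ.card ≤ D) (hdeep : Deep π (2 * D)) {q : Q}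
    {σ τ : Finset V} (hσ : IsCl Γ σ) (hτ : IsCl Γ τ) : q * π (wcl Γ σ) ∈ cube π q τ ↔ σ ⊆ τ := by
  constructor
  · rintro ⟨ρ, hρ, h⟩
    have h1 := mul_left_cancel h
    have h2 := hD σ hσ
    have h3 := hD ρ (hτ.mono hρ)
    have h4 := hdeep.eq h1 (by rw [len_wcl, len_wcl]; omega)
    rw [wcl_injective h4]
    exact hρ
  · intro h
    exact ⟨σ, h, rfl⟩

theorem cube_subset_cube_iff {D : ℕ} (hD : ∀ σ, IsCl Γ σ → σ.card ≤ D) (hdeep : Deep π (2 * D))
    {q p : Q} {σ τ : Finset V} (hσ : IsCl Γ σ) (hτ : IsCl Γ τ) :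
    cube π q σ ⊆ cube π p τ ↔ q ∈ cube π p τ ∧ σ ⊆ τ := by
  constructor
  · intro h
    have h1 := h (self_mem_cube q σ)
    refine ⟨h1, ?_⟩
    rw [← cube_eq_of_mem hτ h1] at h
    exact (mem_cube_iff hD hdeep hσ hτ).1 (h ⟨σ, le_rfl, rfl⟩)
  · rintro ⟨h1, h2⟩
    rw [← cube_eq_of_mem hτ h1]
    exact cube_mono q h2

theorem cube_eq_cube_iff {D : ℕ} (hD : ∀ σ, IsCl Γ σ → σ.card ≤ D) (hdeep : Deep π (2 * D))
    {q p : Q} {σ τ : Finset V} (hσ : IsCl Γ σ) (hτ : IsCl Γ τ) :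
    cube π q σ = cube π p τ ↔ q ∈ cube π p τ ∧ σ = τ := by
  constructor
  · intro h
    have h1 := (cube_subset_cube_iff hD hdeep hσ hτ).1 h.le
    have h2 := (cube_subset_cube_iff hD hdeep hτ hσ).1 h.ge
    exact ⟨h1.1, h1.2.antisymm h2.2⟩
  · rintro ⟨h1, rfl⟩
    exact cube_eq_of_mem hτ h1

/-- The number of vertices of a cube. -/
theorem ncard_cube {D : ℕ} (hD : ∀ σ, IsCl Γ σ → σ.card ≤ D) (hdeep : Deep π (2 * D)) (q : Q)
    {τ : Finset V} (hτ : IsCl Γ τ) : (cube π q τ).ncard = 2 ^ τ.card := by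
  have : cube π q τ = (fun σ => q * π (wcl Γ σ)) '' (τ.powerset : Set (Finset V)) := by
    ext p
    simp only [cube, Set.mem_ofPred_eq, Set.mem_image, Finset.mem_coe, Finset.mem_powerset]
    exact exists_congr fun σ => and_congr Iff.rfl eq_comm
  rw [this, Set.InjOn.ncard_image, Set.ncard_coe_finset, Finset.card_powerset]
  intro σ hσ ρ hρ h
  rw [Finset.mem_coe, Finset.mem_powerset] at hσ hρ
  have h2 := hD σ (hτ.mono hσ)
  have h3 := hD ρ (hτ.mono hρ)
  exact wcl_injective (hdeep.eq (mul_left_cancel h) (by rw [len_wcl, len_wcl]; omega))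

/-- The thickening has no induced squares. -/
theorem thick_noSquare {D : ℕ} (hΓ : NoSquare Γ) (hD : ∀ σ, IsCl Γ σ → σ.card ≤ D)
    (hdeep : Deep π (4 * D)) : NoSquare (thick π) := by
  classical
  rintro q _ _ _ ⟨h1, a, ha, rfl⟩ ⟨h2, b, hb, rfl⟩ ⟨h3, c, hc, rfl⟩ ⟨h4, d, hd, h⟩ h5 h6
  have e1 : π (wcl Γ a * wcl Γ b) = π (wcl Γ d * wcl Γ c) := by
    have h7 : π (wcl Γ a) * π (wcl Γ b) * π (wcl Γ c) * π (wcl Γ d) = 1 := by
      have h8 : q * (π (wcl Γ a) * π (wcl Γ b) * π (wcl Γ c) * π (wcl Γ d)) = q * 1 := by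
        rw [mul_one]
        simpa [mul_assoc] using h.symm
      exact mul_left_cancel h8
    rw [map_mul, map_mul]
    have h9 : π (wcl Γ d) * π (wcl Γ c) = (π (wcl Γ c) * π (wcl Γ d))⁻¹ := by
      rw [mul_inv_rev, ← map_inv, ← map_inv, wcl_inv hc, wcl_inv hd]
    rw [h9, eq_inv_iff_mul_eq_one, ← mul_assoc, h7]
  have e2 : wcl Γ a * wcl Γ b = wcl Γ d * wcl Γ c := by
    refine hdeep.eq e1 ?_
    have l1 := len_mul_le (wcl Γ a) (wcl Γ b)
    have l2 := len_mul_le (wcl Γ d) (wcl Γ c)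
    rw [len_wcl, len_wcl] at l1 l2
    have := hD a ha
    have := hD b hb
    have := hD c hc
    have := hD d hd
    omega
  rcases square_diag hΓ ha hb hc hd e2 with h7 | h7
  · left
    refine ⟨h5, symmDiff a b, ?_, ?_⟩
    · refine h7.mono fun s hs => ?_
      rw [Finset.mem_symmDiff] at hs
      rw [Finset.mem_union]
      tauto
    · rw [← wcl_mul_wcl h7, map_mul, mul_assoc]
  · right
    refine ⟨h6, symmDiff a d, ?_, ?_⟩
    · refine h7.mono fun s hs => ?_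
      rw [Finset.mem_symmDiff] at hs
      rw [Finset.mem_union]
      tauto
    · have h8 : q * π (wcl Γ a) * π (wcl Γ b) * π (wcl Γ c) = q * π (wcl Γ d) := by
        rw [mul_assoc q, ← map_mul, e2, map_mul, ← mul_assoc, mul_assoc _ (π (wcl Γ c)),
          ← map_mul, wcl_mul_self hc, map_one, mul_one]
      rw [h8, ← wcl_mul_wcl h7, map_mul, ← mul_assoc, mul_assoc q, ← map_mul, wcl_mul_self ha,
        map_one, mul_one]

/-- Every clique of the thickening which contains `q` is contained in a least cube; this cube is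
based at `q`. -/
theorem exists_least_cube [Finite V] {D : ℕ} (hD : ∀ σ, IsCl Γ σ → σ.card ≤ D)
    (hdeep : Deep π (3 * D)) {s : Set Q} (hs : ∀ p ∈ s, ∀ q ∈ s, p ≠ q → (thick π).Adj p q)
    {q : Q} (hq : q ∈ s) : ∃ κ, IsCl Γ κ ∧ s ⊆ cube π q κ ∧ ∀ p τ, IsCl Γ τ → s ⊆ cube π p τ →
      cube π q κ ⊆ cube π p τ := by
  classical
  have hdeep2 : Deep π (2 * D) := hdeep.mono (by omega)
  have := Fintype.ofFinite V
  have h1 : ∀ p ∈ s, ∃ σ, IsCl Γ σ ∧ p = q * π (wcl Γ σ) := by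
    intro p hp
    by_cases h : q = p
    · exact ⟨∅, isCl_empty, by simp [h]⟩
    · obtain ⟨_, σ, hσ, h1⟩ := hs q hq p hp h
      exact ⟨σ, hσ, h1⟩
  set κ : Finset V := Finset.univ.filter fun v => ∃ σ, IsCl Γ σ ∧ q * π (wcl Γ σ) ∈ s ∧ v ∈ σ
    with hκ
  have h2 : IsCl Γ κ := by
    intro v hv v' hv' hne
    rw [hκ, Finset.mem_filter] at hv hv'
    obtain ⟨_, σ, hσ, h3, h4⟩ := hv
    obtain ⟨_, τ, hτ, h5, h6⟩ := hv'
    have h7 : IsCl Γ (σ ∪ τ) := by
      by_cases h : q * π (wcl Γ σ) = q * π (wcl Γ τ)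
      · have := hD σ hσ
        have := hD τ hτ
        have h8 := wcl_injective (hdeep2.eq (mul_left_cancel h) (by rw [len_wcl, len_wcl]; omega))
        rw [h8, Finset.union_self]
        exact hτ
      · obtain ⟨_, ρ, hρ, h8⟩ := hs _ h3 _ h5 h
        rw [mul_assoc] at h8
        have h9 := mul_left_cancel h8
        rw [← map_mul] at h9
        have h10 : wcl Γ τ = wcl Γ σ * wcl Γ ρ := by
          refine hdeep.eq h9 ?_
          have l1 := len_mul_le (wcl Γ σ) (wcl Γ ρ)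
          rw [len_wcl, len_wcl] at l1
          rw [len_wcl]
          have := hD σ hσ
          have := hD τ hτ
          have := hD ρ hρ
          omega
        refine isCl_union_of_mul hσ hτ hρ ?_
        rw [h10, ← mul_assoc, wcl_mul_self hσ, one_mul]
    exact h7 v (Finset.mem_union_left _ h4) v' (Finset.mem_union_right _ h6) hne
  refine ⟨κ, h2, fun p hp => ?_, fun p τ hτ hsub => ?_⟩
  · obtain ⟨σ, hσ, rfl⟩ := h1 p hp
    refine ⟨σ, fun v hv => ?_, rfl⟩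
    rw [hκ, Finset.mem_filter]
    exact ⟨Finset.mem_univ _, σ, hσ, hp, hv⟩
  · refine (cube_subset_cube_iff hD hdeep2 h2 hτ).2 ⟨hsub hq, fun v hv => ?_⟩
    rw [hκ, Finset.mem_filter] at hv
    obtain ⟨_, σ, hσ, h3, h4⟩ := hv
    rw [← cube_eq_of_mem hτ (hsub hq)] at hsub
    exact (mem_cube_iff hD hdeep2 hσ hτ).1 (hsub h3) h4

/-- Every finite clique of the thickening which contains `q` is contained in a least cube; this
cube is based at `q`. -/
theorem exists_least_cube_finset {D : ℕ} (hD : ∀ σ, IsCl Γ σ → σ.card ≤ D)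
    (hdeep : Deep π (3 * D)) {s : Finset Q} (hs : ∀ p ∈ s, ∀ q ∈ s, p ≠ q → (thick π).Adj p q)
    {q : Q} (hq : q ∈ s) : ∃ κ, IsCl Γ κ ∧ (s : Set Q) ⊆ cube π q κ ∧
      ∀ p τ, IsCl Γ τ → (s : Set Q) ⊆ cube π p τ → cube π q κ ⊆ cube π p τ := by
  classical
  have hdeep2 : Deep π (2 * D) := hdeep.mono (by omega)
  have h1 : ∀ p ∈ s, ∃ σ, IsCl Γ σ ∧ p = q * π (wcl Γ σ) := by
    intro p hp
    by_cases h : q = p
    · exact ⟨∅, isCl_empty, by simp [h]⟩
    · obtain ⟨_, σ, hσ, h1⟩ := hs q hq p hp h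
      exact ⟨σ, hσ, h1⟩
  choose! f hf1 hf2 using h1
  have h2 : IsCl Γ (s.biUnion f) := by
    intro v hv v' hv' hne
    rw [Finset.mem_biUnion] at hv hv'
    obtain ⟨p, h3, h4⟩ := hv
    obtain ⟨p', h5, h6⟩ := hv'
    have h7 : IsCl Γ (f p ∪ f p') := by
      by_cases h : p = p'
      · rw [h, Finset.union_self]
        exact hf1 _ h5
      · obtain ⟨_, ρ, hρ, h8⟩ := hs _ h3 _ h5 h
        have h9 : π (wcl Γ (f p')) = π (wcl Γ (f p) * wcl Γ ρ) := by
          rw [map_mul]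
          refine mul_left_cancel (a := q) ?_
          rw [← mul_assoc, ← hf2 _ h3, ← hf2 _ h5, h8]
        have h10 : wcl Γ (f p') = wcl Γ (f p) * wcl Γ ρ := by
          refine hdeep.eq h9 ?_
          have l1 := len_mul_le (wcl Γ (f p)) (wcl Γ ρ)
          rw [len_wcl, len_wcl] at l1
          rw [len_wcl]
          have := hD _ (hf1 p h3)
          have := hD _ (hf1 p' h5)
          have := hD ρ hρ
          omega
        refine isCl_union_of_mul (hf1 p h3) (hf1 p' h5) hρ ?_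
        rw [h10, ← mul_assoc, wcl_mul_self (hf1 p h3), one_mul]
    exact h7 v (Finset.mem_union_left _ h4) v' (Finset.mem_union_right _ h6) hne
  refine ⟨s.biUnion f, h2, fun p hp => ?_, fun p τ hτ hsub => ?_⟩
  · exact ⟨f p, Finset.subset_biUnion_of_mem f hp, hf2 p hp⟩
  · refine (cube_subset_cube_iff hD hdeep2 h2 hτ).2 ⟨hsub hq, fun v hv => ?_⟩
    rw [Finset.mem_biUnion] at hv
    obtain ⟨p', h3, h4⟩ := hv
    rw [← cube_eq_of_mem hτ (hsub hq)] at hsub
    have h5 := hsub h3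
    rw [hf2 p' h3] at h5
    exact (mem_cube_iff hD hdeep2 (hf1 p' h3) hτ).1 h5 h4

end Pool.Agent.RACG
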