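import Pool.Agent.RACG.Deep

/-!
# Colourings from dot products, and torsion-freeness of the commutator subgroup
-/

set_option autoImplicit false

namespace Pool.Agent.RACG

variable {V : Type*} {Γ : SimpleGraph V}

open Classical in
/-- The two-sided colouring given by vectors `lam v` and functionals `om v` over `𝔽₂`. -/
noncomputable def Col.ofHom (p : ℕ) [Fact p.Prime] {U : Type*} [AddCommGroup U] (lam : V → U)
    (om : V → U →+ ZMod 2) (h0 : ∀ v, lam v + lam v = 0) (h1 : ∀ v, om v (lam v) = 1)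
    (h2 : ∀ v t, Γ.Adj v t → om v (lam t) = 0) : Col Γ p U where
  lam := lam
  chi v u := if om v u = 0 then 1 else -1
  lam_add := h0
  chi_ne v u := by split_ifs <;> simp
  chi_self v u := by
    rw [map_add, h1]
    have : ∀ a : ZMod 2, (a + 1 = 0 ↔ ¬ a = 0) := by decide
    by_cases h : om v u = 0
    · simp [h]
    · rw [if_pos ((this _).2 h), if_neg h, neg_neg]
  chi_adj v t u h := by rw [map_add, h2 v t h, add_zero]

/-- The kernel of a two-sided colouring is torsion-free. -/
theorem not_isOfFinOrder_of_hom {V : Type} [Finite V] {Γ : SimpleGraph V} {U : Type}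
    [AddCommGroup U] [Finite U] (lam : V → U)
    (om : V → U →+ ZMod 2) (h0 : ∀ v, lam v + lam v = 0) (h1 : ∀ v, om v (lam v) = 1)
    (h2 : ∀ v t, Γ.Adj v t → om v (lam t) = 0) (f : W Γ →* Multiplicative U)
    (hf : ∀ v, f (gen Γ v) = Multiplicative.ofAdd (lam v)) (g : W Γ) (hg : f g = 1)
    (hne : g ≠ 1) : ¬ IsOfFinOrder g := by
  intro hfin
  have hn : orderOf g ≠ 1 := fun h => hne (orderOf_eq_one_iff.1 h)
  obtain ⟨q, hq, hdvd⟩ := Nat.exists_prime_and_dvd hn
  set x := g ^ (orderOf g / q) with hx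
  have hpos : 0 < orderOf g := hfin.orderOf_pos
  have h3 : x ^ q = 1 := by
    rw [hx, ← pow_mul, Nat.div_mul_cancel hdvd, pow_orderOf_eq_one]
  have h4 : x ≠ 1 := by
    intro h
    have h5 := orderOf_dvd_of_pow_eq_one h
    have h6 : 0 < orderOf g / q := Nat.div_pos (Nat.le_of_dvd hpos hdvd) hq.pos
    have h7 := Nat.le_of_dvd h6 h5
    have h8 := Nat.div_lt_self hpos hq.one_lt
    omega
  have key : ∀ p : ℕ, p.Prime → q = p := by
    intro p hp
    have : Fact p.Prime := ⟨hp⟩
    set c : Col Γ p U := Col.ofHom p lam om h0 h1 h2 with hc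
    have hcf : c.hom = f := hom_ext fun v => by rw [c.hom_gen, hf]; rfl
    obtain ⟨Q, _, _, π, _, hdeep, _, hpow⟩ := exists_deep c (len x)
    obtain ⟨j, hj⟩ := hpow x (by rw [hcf, hx, map_pow, hg, one_pow])
    by_contra hqp
    have hcop : Nat.Coprime q (p ^ j) :=
      ((Nat.coprime_primes hq hp).2 hqp).pow_right j
    have h5 : π x ^ q = 1 := by rw [← map_pow, h3, map_one]
    have h6 : π x = 1 := by
      have h7 := orderOf_dvd_of_pow_eq_one h5
      have h8 := orderOf_dvd_of_pow_eq_one hj
      have h9 : orderOf (π x) ∣ 1 := by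
        rw [← Nat.Coprime.gcd_eq_one hcop]
        exact Nat.dvd_gcd h7 h8
      exact orderOf_eq_one_iff.1 (Nat.dvd_one.1 h9)
    exact h4 (hdeep x h6 le_rfl)
  have h3 := key 3 Nat.prime_three
  have h5 := key 5 Nat.prime_five
  omega

open Classical in
variable (Γ) in
/-- The homomorphism to `𝔽₂^V`. -/
noncomputable def abHom : W Γ →* Multiplicative (V → ZMod 2) :=
  lift (fun v => Multiplicative.ofAdd (Pi.single v 1)) (fun v => by
    rw [← ofAdd_add, ← Pi.single_add]
    have : (1 : ZMod 2) + 1 = 0 := by decide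
    rw [this, Pi.single_zero, ofAdd_zero]) (fun _ _ _ => mul_comm _ _)

open Classical in
theorem abHom_gen (v : V) : abHom Γ (gen Γ v) = Multiplicative.ofAdd (Pi.single v 1) := by
  rw [abHom, lift_gen]

/-- The kernel of the homomorphism to `𝔽₂^V` is torsion-free. -/
theorem not_isOfFinOrder {V : Type} [Finite V] {Γ : SimpleGraph V} (g : W Γ)
    (hg : abHom Γ g = 1) (hne : g ≠ 1) : ¬ IsOfFinOrder g := by
  classical
  refine not_isOfFinOrder_of_hom (fun v => Pi.single v 1) (fun v => Pi.evalAddMonoidHom _ v)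
    (fun v => ?_) (fun v => ?_) (fun v t h => ?_) (abHom Γ) abHom_gen g hg hne
  · rw [← Pi.single_add]
    have : (1 : ZMod 2) + 1 = 0 := by decide
    rw [this, Pi.single_zero]
  · simp
  · simp [h.ne]

instance {V : Type} [Finite V] {Γ : SimpleGraph V} : (abHom Γ).ker.FiniteIndex :=
  Subgroup.finiteIndex_ker _

/-- An element of a clique subgroup is not in the kernel of a two-sided colouring. -/
theorem hom_wcl_ne {U : Type*} [AddCommGroup U] (lam : V → U)
    (om : V → U →+ ZMod 2) (h1 : ∀ v, om v (lam v) = 1)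
    (h2 : ∀ v t, Γ.Adj v t → om v (lam t) = 0) (f : W Γ →* Multiplicative U)
    (hf : ∀ v, f (gen Γ v) = Multiplicative.ofAdd (lam v)) {σ : Finset V} (hσ : IsCl Γ σ)
    (hne : σ.Nonempty) : f (wcl Γ σ) ≠ 1 := by
  classical
  obtain ⟨s, hs⟩ := hne
  have key : ∀ l : List V, l.Nodup → (∀ t ∈ l, s ≠ t → Γ.Adj s t) →
      om s (f (prod Γ l)).toAdd = if s ∈ l then 1 else 0 := by
    intro l hl h
    induction l with
    | nil => simp
    | cons a l ih =>
      rw [List.nodup_cons] at hl
      rw [prod_cons, map_mul, toAdd_mul, map_add, hf, toAdd_ofAdd,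
        ih hl.2 fun t ht => h t (List.mem_cons_of_mem _ ht)]
      by_cases ha : s = a
      · subst ha
        simp [h1, hl.1]
      · rw [h2 s a (h a List.mem_cons_self ha), zero_add]
        simp [ha]
  intro h
  have h3 := key σ.toList σ.nodup_toList fun t ht hst => hσ s hs t (Finset.mem_toList.1 ht) hst
  rw [if_pos (Finset.mem_toList.2 hs)] at h3
  rw [wcl] at h
  rw [h] at h3
  simp at h3

end Pool.Agent.RACG
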